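import Pool.Agent.Q289.SF.Stm

open MeasureTheory Set Metric

namespace Pool.Agent.Q289.SF

theorem clm_apply (T : ℂ →L[ℝ] ℝ) (z : ℂ) : T z = z.re * T 1 + z.im * T Complex.I := by
  have h : z = z.re • (1 : ℂ) + z.im • Complex.I := by
    rw [Complex.real_smul, Complex.real_smul]
    simp [Complex.re_add_im]
  conv_lhs => rw [h]
  rw [map_add, map_smul, map_smul]
  simp

theorem norm_sq_clm (T : ℂ →L[ℝ] ℝ) : ‖T‖ ^ 2 = T 1 ^ 2 + T Complex.I ^ 2 := by
  set a := T 1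
  set b := T Complex.I
  have hs : 0 ≤ a ^ 2 + b ^ 2 := by positivity
  have h1 : ‖T‖ ≤ Real.sqrt (a ^ 2 + b ^ 2) := by
    refine T.opNorm_le_bound (Real.sqrt_nonneg _) fun z => ?_
    rw [clm_apply T z, Real.norm_eq_abs]
    have : |z.re * a + z.im * b| = Real.sqrt ((z.re * a + z.im * b) ^ 2) := by
      rw [Real.sqrt_sq_eq_abs]
    change |z.re * a + z.im * b| ≤ _
    rw [this, Complex.norm_def, ← Real.sqrt_mul hs]
    apply Real.sqrt_le_sqrt
    rw [Complex.normSq_apply]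
    nlinarith [sq_nonneg (z.re * b - z.im * a)]
  have h2 : a ^ 2 + b ^ 2 ≤ ‖T‖ * Real.sqrt (a ^ 2 + b ^ 2) := by
    have h3 := T.le_opNorm (⟨a, b⟩ : ℂ)
    rw [clm_apply T] at h3
    have h4 : ‖(⟨a, b⟩ : ℂ)‖ = Real.sqrt (a ^ 2 + b ^ 2) := by
      rw [Complex.norm_def, Complex.normSq_apply]
      congr 1
      ring
    rw [h4] at h3
    calc a ^ 2 + b ^ 2 = a * a + b * b := by ring
      _ ≤ ‖a * a + b * b‖ := le_abs_self _
      _ ≤ _ := h3
  apply le_antisymm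
  · calc ‖T‖ ^ 2 ≤ Real.sqrt (a ^ 2 + b ^ 2) ^ 2 := by gcongr
      _ = _ := Real.sq_sqrt hs
  · rcases hs.eq_or_lt with h | h
    · rw [← h]; positivity
    · have h5 : 0 < Real.sqrt (a ^ 2 + b ^ 2) := Real.sqrt_pos.2 h
      have h6 : Real.sqrt (a ^ 2 + b ^ 2) ≤ ‖T‖ := by
        have := Real.sq_sqrt hs
        nlinarith
      calc a ^ 2 + b ^ 2 = Real.sqrt (a ^ 2 + b ^ 2) ^ 2 := (Real.sq_sqrt hs).symm
        _ ≤ ‖T‖ ^ 2 := by gcongr

theorem U_contDiff {φ : ℝ → ℝ} (hφ : ContDiff ℝ (⊤ : ℕ∞) φ) (τ : ℝ) :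
    ContDiff ℝ (⊤ : ℕ∞) (U φ τ) := by
  unfold U
  exact hφ.comp (contDiff_const.mul (contDiff_norm_sq ℝ))

theorem norm_sq_eq (z : ℂ) : ‖z‖ ^ 2 = z.re ^ 2 + z.im ^ 2 := by
  rw [← Complex.normSq_eq_norm_sq, Complex.normSq_apply]
  ring

theorem hasFDerivAt_normSq (z : ℂ) :
    HasFDerivAt (fun z : ℂ => ‖z‖ ^ 2)
      ((2 * z.re) • Complex.reCLM + (2 * z.im) • Complex.imCLM) z := by
  have h : (fun z : ℂ => ‖z‖ ^ 2) = fun z : ℂ => z.re ^ 2 + z.im ^ 2 := by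
    funext z; exact norm_sq_eq z
  rw [h]
  have h1 : HasFDerivAt (fun z : ℂ => z.re ^ 2) ((2 * z.re) • Complex.reCLM) z := by
    have := (Complex.reCLM.hasFDerivAt (x := z)).pow 2
    simpa using this
  have h2 : HasFDerivAt (fun z : ℂ => z.im ^ 2) ((2 * z.im) • Complex.imCLM) z := by
    have := (Complex.imCLM.hasFDerivAt (x := z)).pow 2
    simpa using this
  exact h1.add h2

theorem hasFDerivAt_radial {φ : ℝ → ℝ} (hφ : Differentiable ℝ φ) (τ : ℝ) (z : ℂ) :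
    HasFDerivAt (U φ τ)
      ((2 * τ * deriv φ (τ * ‖z‖ ^ 2)) • (z.re • Complex.reCLM + z.im • Complex.imCLM)) z := by
  have h1 := (hasFDerivAt_normSq z).const_mul τ
  have h2 : HasDerivAt φ (deriv φ (τ * ‖z‖ ^ 2)) (τ * ‖z‖ ^ 2) := (hφ _).hasDerivAt
  have h3 := h2.comp_hasFDerivAt z h1
  have h4 : ((2 * τ * deriv φ (τ * ‖z‖ ^ 2)) • (z.re • Complex.reCLM + z.im • Complex.imCLM)) =
      deriv φ (τ * ‖z‖ ^ 2) • τ • ((2 * z.re) • Complex.reCLM + (2 * z.im) • Complex.imCLM) := by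
    refine ContinuousLinearMap.ext fun w => ?_
    simp
    ring
  rw [h4]
  exact h3

theorem fderiv_U {φ : ℝ → ℝ} (hφ : Differentiable ℝ φ) (τ : ℝ) (z v : ℂ) :
    fderiv ℝ (U φ τ) z v =
      2 * τ * deriv φ (τ * ‖z‖ ^ 2) * (z.re * v.re + z.im * v.im) := by
  rw [(hasFDerivAt_radial hφ τ z).fderiv]
  simp
  ring

theorem norm_fderiv_U {φ : ℝ → ℝ} (hφ : Differentiable ℝ φ) (τ : ℝ) (z : ℂ) :
    ‖fderiv ℝ (U φ τ) z‖ ^ 2 =
      4 * τ ^ 2 * ‖z‖ ^ 2 * deriv φ (τ * ‖z‖ ^ 2) ^ 2 := by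
  rw [norm_sq_clm, fderiv_U hφ, fderiv_U hφ, norm_sq_eq]
  simp
  ring

theorem contDiff_deriv_top {φ : ℝ → ℝ} (hφ : ContDiff ℝ (⊤ : ℕ∞) φ) :
    ContDiff ℝ (⊤ : ℕ∞) (deriv φ) := by
  have := contDiff_infty_iff_deriv.1 hφ
  exact this.2

theorem ibp : IbpStm := by
  intro φ τ hφ hode g hg hgc
  have hφd : Differentiable ℝ φ := hφ.differentiable (by simp)
  have hφ1 := contDiff_deriv_top hφ
  have hφ1d : Differentiable ℝ (deriv φ) := hφ1.differentiable (by simp)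
  have hgd : Differentiable ℝ g := hg.differentiable (by simp)
  have hgfd : Continuous (fderiv ℝ g) := hg.continuous_fderiv (by simp)
  have hgcd : HasCompactSupport (fderiv ℝ g) := hgc.fderiv (𝕜 := ℝ)
  -- the two component functions
  set V : ℂ → ℝ := U (deriv φ) τ with hV
  have hVc : Continuous V := (U_contDiff hφ1 τ).continuous
  have hVd : ∀ z v, fderiv ℝ V z v =
      2 * τ * deriv (deriv φ) (τ * ‖z‖ ^ 2) * (z.re * v.re + z.im * v.im) :=
    fun z v => fderiv_U hφ1d τ z v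
  have hVdiff : Differentiable ℝ V := (U_contDiff hφ1 τ).differentiable (by simp)
  have hVfc : Continuous (fderiv ℝ V) := (U_contDiff hφ1 τ).continuous_fderiv (by simp)
  set F1 : ℂ → ℝ := fun z => 2 * τ * V z * z.re with hF1
  set F2 : ℂ → ℝ := fun z => 2 * τ * V z * z.im with hF2
  have hF1h : ∀ z, HasFDerivAt F1 ((2 * τ * V z) • Complex.reCLM +
      z.re • ((2 * τ) • fderiv ℝ V z)) z := by
    intro z
    exact (((hVdiff z).hasFDerivAt.const_mul (2 * τ)).mul (Complex.reCLM.hasFDerivAt (x := z)))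
  have hF2h : ∀ z, HasFDerivAt F2 ((2 * τ * V z) • Complex.imCLM +
      z.im • ((2 * τ) • fderiv ℝ V z)) z := by
    intro z
    exact (((hVdiff z).hasFDerivAt.const_mul (2 * τ)).mul (Complex.imCLM.hasFDerivAt (x := z)))
  have hF1d : ∀ z, fderiv ℝ F1 z 1 = 2 * τ * V z + z.re * (2 * τ * (2 * τ *
      deriv (deriv φ) (τ * ‖z‖ ^ 2) * z.re)) := by
    intro z
    rw [(hF1h z).fderiv]
    simp [hVd z]
  have hF2d : ∀ z, fderiv ℝ F2 z Complex.I = 2 * τ * V z + z.im * (2 * τ * (2 * τ *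
      deriv (deriv φ) (τ * ‖z‖ ^ 2) * z.im)) := by
    intro z
    rw [(hF2h z).fderiv]
    simp [hVd z]
  have hF1c : Continuous F1 := by
    have : Differentiable ℝ F1 := fun z => (hF1h z).differentiableAt
    exact this.continuous
  have hF2c : Continuous F2 := by
    have : Differentiable ℝ F2 := fun z => (hF2h z).differentiableAt
    exact this.continuous
  have hcg : ∀ (h : ℂ → ℝ), Continuous h → Integrable (fun z => h z * g z) := by
    intro h hh
    exact (hh.mul hgd.continuous).integrable_of_hasCompactSupport (hgc.mul_left)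
  have hcdg : ∀ (h : ℂ → ℝ) (v : ℂ), Continuous h →
      Integrable (fun z => h z * fderiv ℝ g z v) := by
    intro h v hh
    refine (hh.mul (hgfd.clm_apply continuous_const)).integrable_of_hasCompactSupport ?_
    refine HasCompactSupport.mul_left ?_
    exact hgcd.comp_left (g := fun T : ℂ →L[ℝ] ℝ => T v) (by simp)
  have hcont2 : Continuous (fun z : ℂ => deriv (deriv φ) (τ * ‖z‖ ^ 2)) :=
    (contDiff_deriv_top hφ1).continuous.comp (by fun_prop)
  have e1 := integral_mul_fderiv_eq_neg_fderiv_mul_of_integrable (μ := (volume : Measure ℂ))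
    (f := F1) (g := g) (v := (1 : ℂ))
    (by
      simp_rw [hF1d]
      exact hcg _ (by fun_prop))
    (hcdg F1 1 hF1c) (hcg F1 hF1c) (fun x _ => (hF1h x).differentiableAt) (fun x _ => hgd x)
  have e2 := integral_mul_fderiv_eq_neg_fderiv_mul_of_integrable (μ := (volume : Measure ℂ))
    (f := F2) (g := g) (v := Complex.I)
    (by
      simp_rw [hF2d]
      exact hcg _ (by fun_prop))
    (hcdg F2 Complex.I hF2c) (hcg F2 hF2c) (fun x _ => (hF2h x).differentiableAt)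
    (fun x _ => hgd x)
  have hU1 : ∀ z, fderiv ℝ (U φ τ) z 1 = F1 z := by
    intro z; rw [fderiv_U hφd]; simp [hF1, hV, U]
  have hU2 : ∀ z, fderiv ℝ (U φ τ) z Complex.I = F2 z := by
    intro z; rw [fderiv_U hφd]; simp [hF2, hV, U]
  simp_rw [hU1, hU2]
  rw [integral_add (hcdg F1 1 hF1c) (hcdg F2 Complex.I hF2c), e1, e2, ← neg_add,
    ← integral_add (by simp_rw [hF1d]; exact hcg _ (by fun_prop))
      (by simp_rw [hF2d]; exact hcg _ (by fun_prop)), ← integral_neg, ← integral_const_mul]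
  refine integral_congr_ae (Filter.Eventually.of_forall fun z => ?_)
  simp only [hF1d, hF2d]
  have h := hode (τ * ‖z‖ ^ 2)
  have hn := norm_sq_eq z
  have hVz : V z = deriv φ (τ * ‖z‖ ^ 2) := rfl
  have hUz : U φ τ z = φ (τ * ‖z‖ ^ 2) := rfl
  rw [hVz, hUz]
  set A := deriv (deriv φ) (τ * ‖z‖ ^ 2)
  set B := deriv φ (τ * ‖z‖ ^ 2)
  set Cc := φ (τ * ‖z‖ ^ 2)
  rw [hn] at h
  have h' : Cc = -(τ * (z.re ^ 2 + z.im ^ 2)) * A - B := by linarith
  rw [h']
  ring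

end Pool.Agent.Q289.SF
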