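import Pool.Agent.Q289.SF.Base

open MeasureTheory Set Metric

namespace Pool.Agent.Q289.SF

theorem U_pos {φ : ℝ → ℝ} {τ : ℝ} (hτ : 0 < τ) (hpos : ∀ t ∈ Ico 0 τ, 0 < φ t) {z : ℂ}
    (hz : z ∈ disc) : 0 < U φ τ z := by
  apply hpos
  have h1 : ‖z‖ < 1 := by simpa using hz
  have h0 := norm_nonneg z
  constructor
  · positivity
  · have : ‖z‖ ^ 2 < 1 := by nlinarith
    nlinarith

theorem fderiv_zero_of_notMem {u : ℂ → ℝ} {Ω : Set ℂ} (hu : IsTest Ω u) {z : ℂ} (hz : z ∉ Ω) :
    fderiv ℝ u z = 0 := by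
  have : z ∉ tsupport u := fun h => hz (hu.2.2 h)
  exact fderiv_of_notMem_tsupport (𝕜 := ℝ) this

theorem zero_of_notMem {u : ℂ → ℝ} {Ω : Set ℂ} (hu : IsTest Ω u) {z : ℂ} (hz : z ∉ Ω) :
    u z = 0 := by
  have : z ∉ tsupport u := fun h => hz (hu.2.2 h)
  exact image_eq_zero_of_notMem_tsupport this

theorem eventually_zero_of_notMem {u : ℂ → ℝ} {Ω : Set ℂ} (hu : IsTest Ω u) {z : ℂ}
    (hz : z ∉ Ω) : ∀ᶠ y in nhds z, u y = 0 := by
  have : z ∉ tsupport u := fun h => hz (hu.2.2 h)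
  exact notMem_tsupport_iff_eventuallyEq.1 this

theorem ground_quot {φ : ℝ → ℝ} {τ : ℝ} (hφ : ContDiff ℝ (⊤ : ℕ∞) φ) (hτ : 0 < τ)
    (hpos : ∀ t ∈ Ico 0 τ, 0 < φ t) {u : ℂ → ℝ} (hu : IsTest disc u) :
    IsTest disc (fun z => u z / U φ τ z) := by
  refine ⟨?_, ?_, ?_⟩
  · rw [contDiff_iff_contDiffAt]
    intro z
    by_cases hz : z ∈ disc
    · exact hu.1.contDiffAt.div (U_contDiff hφ τ).contDiffAt (U_pos hτ hpos hz).ne'
    · have h := eventually_zero_of_notMem hu hz
      have h2 : (fun z => u z / U φ τ z) =ᶠ[nhds z] fun _ => 0 := by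
        filter_upwards [h] with y hy
        simp [hy]
      exact contDiffAt_const.congr_of_eventuallyEq h2
  · refine hu.2.1.mono ?_
    intro z hz
    simp only [Function.mem_support] at hz ⊢
    intro h
    exact hz (by simp [h])
  · refine (closure_mono ?_).trans hu.2.2
    intro z hz
    simp only [Function.mem_support] at hz ⊢
    intro h
    exact hz (by simp [h])

theorem setInt_eq {g : ℂ → ℝ} (hg : ∀ z, z ∉ disc → g z = 0) :
    ∫ z in disc, g z = ∫ z, g z :=
  setIntegral_eq_integral_of_forall_compl_eq_zero hg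

theorem ground : GroundStm := by
  intro φ τ hφ hτ hode hpos u hu
  have hw := ground_quot hφ hτ hpos hu
  refine ⟨hw.1, ?_⟩
  set w : ℂ → ℝ := fun z => u z / U φ τ z with hwdef
  have huw : ∀ z, u z = w z * U φ τ z := by
    intro z
    by_cases hz : z ∈ disc
    · rw [hwdef]
      simp only
      rw [div_mul_cancel₀ _ (U_pos hτ hpos hz).ne']
    · rw [zero_of_notMem hu hz, zero_of_notMem hw hz, zero_mul]
  have hud : Differentiable ℝ u := hu.1.differentiable (by simp)
  have hwd : Differentiable ℝ w := hw.1.differentiable (by simp)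
  have hUd : Differentiable ℝ (U φ τ) := (U_contDiff hφ τ).differentiable (by simp)
  have hUc := hUd.continuous
  have hUfc : Continuous (fderiv ℝ (U φ τ)) := (U_contDiff hφ τ).continuous_fderiv (by simp)
  have hwfc : Continuous (fderiv ℝ w) := hw.1.continuous_fderiv (by simp)
  have hufc : Continuous (fderiv ℝ u) := hu.1.continuous_fderiv (by simp)
  -- derivative of `u = w U`
  have hfu : ∀ z v, fderiv ℝ u z v = w z * fderiv ℝ (U φ τ) z v + U φ τ z * fderiv ℝ w z v := by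
    intro z v
    have h1 : u = fun z => w z * U φ τ z := funext huw
    have h2 := (hwd z).hasFDerivAt.mul (hUd z).hasFDerivAt
    have h3 : fderiv ℝ u z = w z • fderiv ℝ (U φ τ) z + U φ τ z • fderiv ℝ w z := by
      rw [h1]
      exact h2.fderiv
    rw [h3]
    simp
  have hfg : ∀ z v, fderiv ℝ (fun z => w z * u z) z v =
      w z * fderiv ℝ u z v + u z * fderiv ℝ w z v := by
    intro z v
    have h3 : fderiv ℝ (fun z => w z * u z) z = w z • fderiv ℝ u z + u z • fderiv ℝ w z :=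
      ((hwd z).hasFDerivAt.mul (hud z).hasFDerivAt).fderiv
    rw [h3]
    simp
  have hib := ibp φ τ hφ hode (fun z => w z * u z) (hw.1.mul hu.1) (hu.2.1.mul_left)
  have hpt : ∀ z, ‖fderiv ℝ u z‖ ^ 2 =
      (fderiv ℝ (U φ τ) z 1 * fderiv ℝ (fun z => w z * u z) z 1 +
        fderiv ℝ (U φ τ) z Complex.I * fderiv ℝ (fun z => w z * u z) z Complex.I) +
      U φ τ z ^ 2 * ‖fderiv ℝ w z‖ ^ 2 := by
    intro z
    rw [norm_sq_clm, norm_sq_clm, hfg, hfg, hfu, hfu, huw z]
    ring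
  rw [setInt_eq (g := fun z => ‖fderiv ℝ u z‖ ^ 2)
      (fun z hz => by simp [fderiv_zero_of_notMem hu hz]),
    setInt_eq (g := fun z => u z ^ 2) (fun z hz => by simp [zero_of_notMem hu hz]),
    setInt_eq (g := fun z => U φ τ z ^ 2 * ‖fderiv ℝ w z‖ ^ 2)
      (fun z hz => by simp [fderiv_zero_of_notMem hw hz])]
  have hI2 : Integrable (fun z => U φ τ z ^ 2 * ‖fderiv ℝ w z‖ ^ 2) := by
    refine Continuous.integrable_of_hasCompactSupport (by fun_prop) ?_
    have h1 : HasCompactSupport (fderiv ℝ w) := hw.2.1.fderiv (𝕜 := ℝ)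
    exact (h1.comp_left (g := fun T : ℂ →L[ℝ] ℝ => ‖T‖ ^ 2) (by simp)).mul_left
  have hI3 : Integrable (fun z => ‖fderiv ℝ u z‖ ^ 2) := by
    refine Continuous.integrable_of_hasCompactSupport (by fun_prop) ?_
    have h1 : HasCompactSupport (fderiv ℝ u) := hu.2.1.fderiv (𝕜 := ℝ)
    exact (h1.comp_left (g := fun T : ℂ →L[ℝ] ℝ => ‖T‖ ^ 2) (by simp))
  have hI1 : Integrable (fun z => (fderiv ℝ (U φ τ) z 1 * fderiv ℝ (fun z => w z * u z) z 1 +
        fderiv ℝ (U φ τ) z Complex.I * fderiv ℝ (fun z => w z * u z) z Complex.I)) := by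
    have h1 : (fun z => (fderiv ℝ (U φ τ) z 1 * fderiv ℝ (fun z => w z * u z) z 1 +
        fderiv ℝ (U φ τ) z Complex.I * fderiv ℝ (fun z => w z * u z) z Complex.I)) =
        fun z => ‖fderiv ℝ u z‖ ^ 2 - U φ τ z ^ 2 * ‖fderiv ℝ w z‖ ^ 2 := by
      funext z
      rw [hpt z]
      ring
    rw [h1]
    exact hI3.sub hI2
  rw [integral_congr_ae (Filter.Eventually.of_forall hpt), integral_add hI1 hI2, hib]
  congr 2
  refine integral_congr_ae (Filter.Eventually.of_forall fun z => ?_)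
  simp only
  rw [huw z]
  ring

theorem integrableOn_disc {g : ℂ → ℝ} (hg : Continuous g) : IntegrableOn g disc :=
  (hg.continuousOn.integrableOn_compact (isCompact_closedBall (0 : ℂ) 1)).mono_set
    ball_subset_closedBall

theorem N_pos {φ : ℝ → ℝ} {τ : ℝ} (hφ : ContDiff ℝ (⊤ : ℕ∞) φ) (hτ : 0 < τ)
    (hpos : ∀ t ∈ Ico 0 τ, 0 < φ t) : 0 < ∫ z in disc, U φ τ z ^ 2 := by
  have hUc : Continuous (U φ τ) := (U_contDiff hφ τ).continuous
  rw [setIntegral_pos_iff_support_of_nonneg_ae]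
  · have h1 : disc ⊆ (Function.support fun z => U φ τ z ^ 2) ∩ disc := by
      intro z hz
      refine ⟨?_, hz⟩
      simp only [Function.mem_support]
      have := U_pos hτ hpos hz
      positivity
    refine lt_of_lt_of_le ?_ (measure_mono h1)
    exact (isOpen_ball.measure_pos volume ⟨0, by simp⟩)
  · exact Filter.Eventually.of_forall fun z => by positivity
  · exact integrableOn_disc (by fun_prop)

end Pool.Agent.Q289.SF
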