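import Pool.Agent.Q289.SF.Upper

open MeasureTheory Set Metric

namespace Pool.Agent.Q289.SF

/-- bump polynomial on `[a,b]` -/
noncomputable def psi (a b : ℝ) (k : ℕ) (t : ℝ) : ℝ := 1 - ((2 * t - a - b) / (b - a)) ^ (2 * k)

noncomputable def dpsi (a b : ℝ) (k : ℕ) (t : ℝ) : ℝ :=
  -((2 * k : ℕ) * ((2 * t - a - b) / (b - a)) ^ (2 * k - 1) * (2 / (b - a)))

theorem psi_hasDeriv (a b : ℝ) (k : ℕ) (t : ℝ) : HasDerivAt (psi a b k) (dpsi a b k t) t := by
  have h1 : HasDerivAt (fun t : ℝ => (2 * t - a - b) / (b - a)) (2 / (b - a)) t := by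
    have := ((((hasDerivAt_id t).const_mul 2).sub_const a).sub_const b).div_const (b - a)
    simpa using this
  have h2 := (h1.pow (2 * k)).const_sub 1
  exact h2

theorem psi_cont (a b : ℝ) (k : ℕ) : Continuous (psi a b k) := by
  unfold psi; fun_prop

theorem dpsi_cont (a b : ℝ) (k : ℕ) : Continuous (dpsi a b k) := by
  unfold dpsi; fun_prop

theorem psi_left {a b : ℝ} (hab : a < b) (k : ℕ) : psi a b k a = 0 := by
  have h : (2 * a - a - b) / (b - a) = -1 := by
    have : b - a ≠ 0 := (sub_pos.2 hab).ne'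
    field_simp; ring
  unfold psi
  rw [h, pow_mul]; simp

theorem psi_right {a b : ℝ} (hab : a < b) (k : ℕ) : psi a b k b = 0 := by
  have h : (2 * b - a - b) / (b - a) = 1 := by
    have : b - a ≠ 0 := (sub_pos.2 hab).ne'
    field_simp; ring
  unfold psi
  rw [h]; simp

theorem psi_mem {a b : ℝ} (hab : a < b) (k : ℕ) {t : ℝ} (ht : t ∈ Icc a b) :
    0 ≤ psi a b k t ∧ psi a b k t ≤ 1 := by
  have hp : 0 < b - a := sub_pos.2 hab
  have h1 : ((2 * t - a - b) / (b - a)) ^ 2 ≤ 1 := by
    rw [div_pow, div_le_one (by positivity)]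
    nlinarith [ht.1, ht.2]
  unfold psi
  rw [pow_mul]
  constructor
  · have := pow_le_one₀ (n := k) (sq_nonneg ((2 * t - a - b) / (b - a))) h1
    linarith
  · have : 0 ≤ (((2 * t - a - b) / (b - a)) ^ 2) ^ k := by positivity
    linarith

theorem psi_integral {a b : ℝ} (hab : a < b) (k : ℕ) :
    ∫ t in a..b, psi a b k t = (b - a) * (1 - 1 / (2 * k + 1)) := by
  have hp : b - a ≠ 0 := (sub_pos.2 hab).ne'
  have hk : (2 * (k : ℝ) + 1) ≠ 0 := by positivity
  have h1 : ∀ t ∈ uIcc a b, HasDerivAt (fun t : ℝ => t -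
      (b - a) / 2 / (2 * k + 1) * ((2 * t - a - b) / (b - a)) ^ (2 * k + 1)) (psi a b k t) t := by
    intro t _
    have h1 : HasDerivAt (fun t : ℝ => (2 * t - a - b) / (b - a)) (2 / (b - a)) t := by
      have := ((((hasDerivAt_id t).const_mul 2).sub_const a).sub_const b).div_const (b - a)
      simpa using this
    have h2 : HasDerivAt (fun t : ℝ => t -
        (b - a) / 2 / (2 * k + 1) * ((2 * t - a - b) / (b - a)) ^ (2 * k + 1))
        (1 - (b - a) / 2 / (2 * k + 1) * (((2 * k + 1 : ℕ) : ℝ) *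
          ((2 * t - a - b) / (b - a)) ^ (2 * k + 1 - 1) * (2 / (b - a)))) t :=
      (hasDerivAt_id t).sub ((h1.pow (2 * k + 1)).const_mul ((b - a) / 2 / (2 * k + 1)))
    have h3 : psi a b k t = 1 - (b - a) / 2 / (2 * k + 1) * (((2 * k + 1 : ℕ) : ℝ) *
          ((2 * t - a - b) / (b - a)) ^ (2 * k + 1 - 1) * (2 / (b - a))) := by
      unfold psi
      rw [Nat.add_sub_cancel]
      push_cast
      have h4 : (b - a) / 2 / (2 * k + 1) * ((2 * (k : ℝ) + 1) *
          ((2 * t - a - b) / (b - a)) ^ (2 * k) * (2 / (b - a))) =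
          ((2 * t - a - b) / (b - a)) ^ (2 * k) *
            ((b - a) / 2 / (2 * k + 1) * (2 * (k : ℝ) + 1) * (2 / (b - a))) := by ring
      have h5 : (b - a) / 2 / (2 * k + 1) * (2 * (k : ℝ) + 1) * (2 / (b - a)) = 1 := by
        field_simp
      rw [h4, h5, mul_one]
    rw [h3]
    exact h2
  rw [intervalIntegral.integral_eq_sub_of_hasDerivAt h1 ((psi_cont a b k).intervalIntegrable _ _)]
  have e1 : (2 * b - a - b) / (b - a) = 1 := by field_simp; ring
  have e2 : (2 * a - a - b) / (b - a) = -1 := by field_simp; ring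
  rw [e1, e2, one_pow, Odd.neg_one_pow ⟨k, rfl⟩]
  field_simp
  ring

/-- The radial profile. -/
theorem f_hasDeriv {φ : ℝ → ℝ} (hφ : Differentiable ℝ φ) (τ t : ℝ) :
    HasDerivAt (fun r : ℝ => φ (τ * r ^ 2)) (2 * τ * t * deriv φ (τ * t ^ 2)) t := by
  have h1 : HasDerivAt (fun r : ℝ => τ * r ^ 2) (τ * (2 * t)) t := by
    have := (hasDerivAt_pow 2 t).const_mul τ
    simpa using this
  have h2 : HasDerivAt (fun r : ℝ => φ (τ * r ^ 2)) (deriv φ (τ * t ^ 2) * (τ * (2 * t))) t :=
    ((hφ (τ * t ^ 2)).hasDerivAt).comp t h1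
  have h3 : 2 * τ * t * deriv φ (τ * t ^ 2) = deriv φ (τ * t ^ 2) * (τ * (2 * t)) := by ring
  rw [h3]
  exact h2

theorem f_antitone {φ : ℝ → ℝ} {τ : ℝ} (hφ : Differentiable ℝ φ) (hτ : 0 < τ)
    (hneg : ∀ t ∈ Icc 0 τ, deriv φ t < 0) :
    AntitoneOn (fun r : ℝ => φ (τ * r ^ 2)) (Icc 0 1) := by
  apply antitoneOn_of_deriv_nonpos (convex_Icc 0 1)
  · exact fun t _ => (f_hasDeriv hφ τ t).continuousAt.continuousWithinAt
  · exact fun t _ => (f_hasDeriv hφ τ t).differentiableAt.differentiableWithinAt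
  · intro t ht
    rw [interior_Icc] at ht
    rw [(f_hasDeriv hφ τ t).deriv]
    have h1 : τ * t ^ 2 ∈ Icc 0 τ := by
      constructor
      · positivity
      · have : t ^ 2 ≤ 1 := by nlinarith [ht.1, ht.2]
        nlinarith
    have h2 := hneg _ h1
    have h3 : 0 ≤ 2 * τ * t := by
      have := ht.1
      positivity
    exact mul_nonpos_of_nonneg_of_nonpos h3 h2.le

theorem slice_hasDeriv {u : ℂ → ℝ} (hu : Differentiable ℝ u) (t : ℝ) :
    HasDerivAt (fun s : ℝ => u (s : ℂ)) (fderiv ℝ u (t : ℂ) 1) t := by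
  have h1 : HasDerivAt (fun s : ℝ => (s : ℂ)) 1 t := Complex.ofRealCLM.hasDerivAt
  exact (hu (t : ℂ)).hasFDerivAt.comp_hasDerivAt t h1

/-- One-dimensional estimate on the segment. -/
theorem segment_bound {φ : ℝ → ℝ} {τ : ℝ} (hφ : ContDiff ℝ (⊤ : ℕ∞) φ)
    {a b g : ℝ} (hab : a < b) (hg : 0 < g)
    (hfg : ∀ t ∈ Icc a b, 2 * τ * t * deriv φ (τ * t ^ 2) ≤ -g) (k : ℕ) (hk : 0 < k)
    {u w : ℂ → ℝ} (hu : ContDiff ℝ 1 u)
    (huw : ∀ t ∈ Icc a b, u (t : ℂ) = w (t : ℂ) * φ (τ * t ^ 2)) (ℓ B : ℝ)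
    (hB : B = ∫ t in a..b, 2 * τ * t * deriv φ (τ * t ^ 2) * psi a b k t)
    (hℓ : ℓ = ∫ t in a..b, (-(φ (τ * t ^ 2) * dpsi a b k t) / B) * w (t : ℂ)) :
    (b - a) * (1 - 1 / (2 * k + 1)) * g ^ 2 * ℓ ^ 2 ≤
      ∫ t in a..b, ‖fderiv ℝ u (t : ℂ)‖ ^ 2 := by
  have hφd : Differentiable ℝ φ := hφ.differentiable (by simp)
  have hφ' : Continuous (deriv φ) := (contDiff_deriv_top hφ).continuous
  have hud : Differentiable ℝ u := hu.differentiable (by simp)
  have hufc : Continuous (fderiv ℝ u) := hu.continuous_fderiv (by simp)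
  set J := (b - a) * (1 - 1 / (2 * (k : ℝ) + 1)) with hJ
  have hJint : ∫ t in a..b, psi a b k t = J := psi_integral hab k
  have hJpos : 0 < J := by
    have h1 : 0 < b - a := sub_pos.2 hab
    have h2 : (1 : ℝ) / (2 * k + 1) < 1 := by
      rw [div_lt_one (by positivity)]
      have : (0 : ℝ) < k := by exact_mod_cast hk
      linarith
    rw [hJ]
    have : 0 < 1 - 1 / (2 * (k : ℝ) + 1) := by linarith
    positivity
  have hc1 : Continuous (fun t : ℝ => 2 * τ * t * deriv φ (τ * t ^ 2)) := by fun_prop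
  have hBneg : B ≤ -(g * J) := by
    rw [hB, ← hJint, ← intervalIntegral.integral_const_mul, ← intervalIntegral.integral_neg]
    apply intervalIntegral.integral_mono_on hab.le
    · exact (hc1.mul (psi_cont a b k)).intervalIntegrable _ _
    · exact (((psi_cont a b k).const_mul g).neg).intervalIntegrable _ _
    · intro t ht
      have h1 := hfg t ht
      have h2 := (psi_mem hab k ht).1
      nlinarith
  have hB0 : B ≠ 0 := by
    have : 0 < g * J := by positivity
    linarith
  set Q := ∫ t in a..b, psi a b k t ^ 2 with hQ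
  have hQJ : Q ≤ J := by
    rw [hQ, ← hJint]
    apply intervalIntegral.integral_mono_on hab.le
    · exact ((psi_cont a b k).pow 2).intervalIntegrable _ _
    · exact (psi_cont a b k).intervalIntegrable _ _
    · intro t ht
      have h := psi_mem hab k ht
      nlinarith [h.1, h.2]
  -- the linear functional is the projection on psi
  set p : ℝ → ℝ := fun t => fderiv ℝ u (t : ℂ) 1 with hp
  have hpc : Continuous p := by
    exact (hufc.comp Complex.continuous_ofReal).clm_apply continuous_const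
  have hR : ∫ t in a..b, p t * psi a b k t = B * ℓ := by
    have h1 : ∫ t in a..b, u (t : ℂ) * dpsi a b k t =
        u (b : ℂ) * psi a b k b - u (a : ℂ) * psi a b k a - ∫ t in a..b, p t * psi a b k t :=
      intervalIntegral.integral_mul_deriv_eq_deriv_mul
        (fun t _ => slice_hasDeriv hud t) (fun t _ => psi_hasDeriv a b k t)
        (hpc.intervalIntegrable _ _) ((dpsi_cont a b k).intervalIntegrable _ _)
    rw [psi_left hab, psi_right hab] at h1
    have h2 : B * ℓ = -∫ t in a..b, u (t : ℂ) * dpsi a b k t := by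
      rw [hℓ, ← intervalIntegral.integral_const_mul, ← intervalIntegral.integral_neg]
      apply intervalIntegral.integral_congr
      intro t ht
      rw [uIcc_of_le hab.le] at ht
      simp only
      rw [huw t ht]
      field_simp
    rw [h2, h1]
    ring
  have hsq : 0 ≤ ∫ t in a..b, (p t + g * ℓ * psi a b k t) ^ 2 :=
    intervalIntegral.integral_nonneg hab.le fun t _ => by positivity
  have hexp : ∫ t in a..b, (p t + g * ℓ * psi a b k t) ^ 2 =
      (∫ t in a..b, p t ^ 2) + 2 * g * ℓ * (B * ℓ) + (g * ℓ) ^ 2 * Q := by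
    rw [← hR, hQ, ← intervalIntegral.integral_const_mul, ← intervalIntegral.integral_const_mul,
      ← intervalIntegral.integral_add, ← intervalIntegral.integral_add]
    · apply intervalIntegral.integral_congr
      intro t _
      simp only
      ring
    · exact Continuous.intervalIntegrable (by have := psi_cont a b k; fun_prop) _ _
    · exact Continuous.intervalIntegrable (by have := psi_cont a b k; fun_prop) _ _
    · exact Continuous.intervalIntegrable (by have := psi_cont a b k; fun_prop) _ _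
    · exact Continuous.intervalIntegrable (by have := psi_cont a b k; fun_prop) _ _
  have hpn : ∫ t in a..b, p t ^ 2 ≤ ∫ t in a..b, ‖fderiv ℝ u (t : ℂ)‖ ^ 2 := by
    apply intervalIntegral.integral_mono_on hab.le
    · exact (hpc.pow 2).intervalIntegrable _ _
    · exact (((hufc.comp Complex.continuous_ofReal).norm).pow 2).intervalIntegrable _ _
    · intro t _
      have h1 := (fderiv ℝ u (t : ℂ)).le_opNorm 1
      rw [norm_one, mul_one] at h1
      have h2 : p t ^ 2 = ‖fderiv ℝ u (t : ℂ) 1‖ ^ 2 := by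
        rw [Real.norm_eq_abs, sq_abs]
      rw [h2]
      gcongr
  have hℓ2 : 0 ≤ ℓ ^ 2 := sq_nonneg ℓ
  have hmain : J * g ^ 2 * ℓ ^ 2 ≤ ∫ t in a..b, p t ^ 2 := by
    rw [hexp] at hsq
    have h1 : 2 * g * ℓ ^ 2 * B ≤ 2 * g * ℓ ^ 2 * (-(g * J)) := by
      apply mul_le_mul_of_nonneg_left hBneg; positivity
    have h2 : (g * ℓ) ^ 2 * Q ≤ (g * ℓ) ^ 2 * J := by
      apply mul_le_mul_of_nonneg_left hQJ; positivity
    nlinarith
  exact hmain.trans hpn

theorem lower (hW : WeightedStm) {φ : ℝ → ℝ} {τ : ℝ} (hφ : ContDiff ℝ (⊤ : ℕ∞) φ) (hτ : 0 < τ)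
    (hode : ∀ t, t * deriv (deriv φ) t + deriv φ t + φ t = 0) (h0 : φ τ = 0)
    (hpos : ∀ t ∈ Ico 0 τ, 0 < φ t) (hneg : ∀ t ∈ Icc 0 τ, deriv φ t < 0)
    {a b θ g : ℝ} (ha : 0 < a) (hab : a < b) (hb : b < 1) (hθ : 0 < θ) (hg : 0 < g)
    (hfg : ∀ t ∈ Icc a b, 2 * τ * t * deriv φ (τ * t ^ 2) ≤ -g)
    (hseg : ∀ h : ℂ → ℝ, Continuous h →
      ∫ z, h z ∂(segMeasure a b θ) = θ * ∫ t in a..b, h (t : ℂ))
    {δ : ℝ} (hδ : 0 < δ) :
    ∃ m₀ : ℝ, 0 < m₀ ∧ ∀ m, 0 < m → m < m₀ →
      4 * τ + m * (θ * (b - a) * g ^ 2 - δ) / (∫ z in disc, U φ τ z ^ 2) ≤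
        lam disc m (segMeasure a b θ) := by
  have hφd : Differentiable ℝ φ := hφ.differentiable (by simp)
  have hφ' : Continuous (deriv φ) := (contDiff_deriv_top hφ).continuous
  have hφc : Continuous φ := hφd.continuous
  have hUc : Continuous (U φ τ) := (U_contDiff hφ τ).continuous
  have hN := N_pos hφ hτ hpos
  set N := ∫ z in disc, U φ τ z ^ 2 with hNdef
  have hba : 0 < b - a := sub_pos.2 hab
  set A := θ * (b - a) * g ^ 2 with hA
  have hApos : 0 < A := by positivity
  -- choice of k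
  obtain ⟨k, hk⟩ := exists_nat_gt (A / (δ / 2))
  have hk0 : 0 < k := by
    have : (0 : ℝ) < k := lt_of_le_of_lt (by positivity) hk
    exact_mod_cast this
  have hkr : (0 : ℝ) < k := by exact_mod_cast hk0
  have hAk : A * (1 / (2 * k + 1)) ≤ δ / 2 := by
    rw [div_lt_iff₀ (by positivity)] at hk
    rw [mul_one_div, div_le_iff₀ (by positivity)]
    nlinarith
  set α := A * (1 - 1 / (2 * (k : ℝ) + 1)) with hα
  have hαA : A - δ / 2 ≤ α := by rw [hα]; linarith
  have hfrac : (1 : ℝ) / (2 * k + 1) < 1 := by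
    rw [div_lt_one (by positivity)]; linarith
  have hα0 : 0 < α := by
    rw [hα]
    have : 0 < 1 - 1 / (2 * (k : ℝ) + 1) := by linarith
    positivity
  have hαle : α ≤ A := by
    have h1 : (0 : ℝ) ≤ 1 / (2 * k + 1) := by positivity
    rw [hα]; nlinarith
  set η := δ / (2 * A) with hη
  have hηpos : 0 < η := by positivity
  have hηA : A * η = δ / 2 := by rw [hη]; field_simp
  -- the functional
  set B := ∫ t in a..b, 2 * τ * t * deriv φ (τ * t ^ 2) * psi a b k t with hB
  have hc1 : Continuous (fun t : ℝ => 2 * τ * t * deriv φ (τ * t ^ 2)) := by fun_prop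
  have hBneg : B < 0 := by
    have hJint : ∫ t in a..b, psi a b k t = (b - a) * (1 - 1 / (2 * k + 1)) := psi_integral hab k
    have h1 : B ≤ -(g * ((b - a) * (1 - 1 / (2 * k + 1)))) := by
      rw [hB, ← hJint, ← intervalIntegral.integral_const_mul, ← intervalIntegral.integral_neg]
      apply intervalIntegral.integral_mono_on hab.le
      · exact (hc1.mul (psi_cont a b k)).intervalIntegrable _ _
      · exact (((psi_cont a b k).const_mul g).neg).intervalIntegrable _ _
      · intro t ht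
        have h1 := hfg t ht
        have h2 := (psi_mem hab k ht).1
        nlinarith
    have h2 : 0 < g * ((b - a) * (1 - 1 / (2 * k + 1))) := by
      have : 0 < 1 - 1 / (2 * (k : ℝ) + 1) := by linarith
      positivity
    linarith
  set kk : ℝ → ℝ := fun t => -(φ (τ * t ^ 2) * dpsi a b k t) / B with hkk
  have hkkc : Continuous kk := by
    have := dpsi_cont a b k
    rw [hkk]; fun_prop
  have hkint : ∫ s in a..b, kk s = 1 := by
    have h1 : ∫ t in a..b, φ (τ * t ^ 2) * dpsi a b k t =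
        φ (τ * b ^ 2) * psi a b k b - φ (τ * a ^ 2) * psi a b k a -
          ∫ t in a..b, 2 * τ * t * deriv φ (τ * t ^ 2) * psi a b k t :=
      intervalIntegral.integral_mul_deriv_eq_deriv_mul
        (fun t _ => f_hasDeriv hφd τ t) (fun t _ => psi_hasDeriv a b k t)
        (hc1.intervalIntegrable _ _) ((dpsi_cont a b k).intervalIntegrable _ _)
    rw [psi_left hab, psi_right hab, ← hB] at h1
    rw [hkk, intervalIntegral.integral_div, intervalIntegral.integral_neg, h1]
    field_simp [hBneg.ne]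
    ring
  obtain ⟨C, hC, hCw⟩ := hW (fun r => φ (τ * r ^ 2)) kk a b (by fun_prop)
    (f_antitone hφd hτ hneg)
    (fun t ht => by
      apply hpos
      constructor
      · have := ht.1; positivity
      · have h1 : t ^ 2 < 1 := by nlinarith [ht.1, ht.2]
        nlinarith)
    (by simp [h0]) ha hab hb hkkc hkint
  refine ⟨η * N / (A * C), by positivity, fun m hm hmm => ?_⟩
  have hmC : m * A * C ≤ η * N := by
    rw [lt_div_iff₀ (by positivity)] at hmm
    linarith
  -- lower bound for every quotient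
  unfold lam
  apply le_csInf
  · -- nonempty
    have hφ0 : 0 < φ 0 := hpos 0 ⟨le_rfl, hτ⟩
    refine ⟨_, ue φ τ (φ 0 / 4), ue_test hφ h0 (by positivity), ?_, rfl⟩
    intro h
    have h1 : ue φ τ (φ 0 / 4) 0 = 0 := by rw [h]; rfl
    unfold ue at h1
    rw [indicator_of_mem (by simp)] at h1
    have h2 := Gr_ge (ε := φ 0 / 4) (s := U φ τ 0) (by positivity) (by simpa [U] using hφ0.le)
    rw [h1] at h2
    simp [U] at h2
    linarith
  · rintro q ⟨u, hu, hu0, rfl⟩
    have huc : Continuous u := hu.1.continuous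
    have hufc : Continuous (fderiv ℝ u) := hu.1.continuous_fderiv (by simp)
    have hwT := ground_quot hφ hτ hpos hu
    obtain ⟨_, hgr⟩ := ground φ τ hφ hτ hode hpos u hu
    set w : ℂ → ℝ := fun z => u z / U φ τ z with hw
    have hwc : Continuous w := hwT.1.continuous
    have hwfc : Continuous (fderiv ℝ w) := hwT.1.continuous_fderiv (by simp)
    set E := ∫ z in disc, U φ τ z ^ 2 * ‖fderiv ℝ w z‖ ^ 2 with hE
    have hE0 : 0 ≤ E := integral_nonneg fun z => by positivity
    set S := ∫ z in disc, u z ^ 2 with hS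
    have hSpos : 0 < S := by
      rw [hS, setInt_eq (g := fun z => u z ^ 2) (fun z hz => by simp [zero_of_notMem hu hz])]
      obtain ⟨x, hx⟩ := Function.ne_iff.1 hu0
      have hcs : HasCompactSupport (fun z => u z ^ 2) := by
        have := hu.2.1.comp_left (g := fun x : ℝ => x ^ 2) (by simp)
        exact this
      exact (huc.pow 2).integral_pos_of_hasCompactSupport_nonneg_nonzero hcs
        (fun z => by positivity) (x := x) (by simpa using hx)
    set ℓ := ∫ s in a..b, kk s * w (s : ℂ) with hℓ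
    have hWw : ∫ z in disc, U φ τ z ^ 2 * (w z - ℓ) ^ 2 ≤ C * E :=
      hCw w (hwT.1.of_le (by simp))
    -- comparison of the L² norm
    have hSle : S ≤ (1 + η) * (ℓ ^ 2 * N) + (1 + 1 / η) * (C * E) := by
      have h1 : S ≤ ∫ z in disc, ((1 + η) * (ℓ ^ 2 * U φ τ z ^ 2) +
          (1 + 1 / η) * (U φ τ z ^ 2 * (w z - ℓ) ^ 2)) := by
        rw [hS]
        apply setIntegral_mono_on (integrableOn_disc (by fun_prop))
          (integrableOn_disc (by fun_prop)) measurableSet_ball
        intro z hz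
        have hUz := U_pos hτ hpos hz
        have huz : u z = w z * U φ τ z := by
          rw [hw]; simp only; rw [div_mul_cancel₀ _ hUz.ne']
        rw [huz]
        have h2 : w z ^ 2 ≤ (1 + η) * ℓ ^ 2 + (1 + 1 / η) * (w z - ℓ) ^ 2 := by
          have h3 : 0 ≤ (η * ℓ - (w z - ℓ)) ^ 2 / η := by positivity
          have h4 : (η * ℓ - (w z - ℓ)) ^ 2 / η =
              η * ℓ ^ 2 - 2 * ℓ * (w z - ℓ) + (w z - ℓ) ^ 2 / η := by
            field_simp
            ring
          have h5 : (1 + 1 / η) * (w z - ℓ) ^ 2 = (w z - ℓ) ^ 2 + (w z - ℓ) ^ 2 / η := by ring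
          rw [h5]
          nlinarith
        calc (w z * U φ τ z) ^ 2 = U φ τ z ^ 2 * w z ^ 2 := by ring
          _ ≤ U φ τ z ^ 2 * ((1 + η) * ℓ ^ 2 + (1 + 1 / η) * (w z - ℓ) ^ 2) := by gcongr
          _ = _ := by ring
      have h2 : ∫ z in disc, ((1 + η) * (ℓ ^ 2 * U φ τ z ^ 2) +
          (1 + 1 / η) * (U φ τ z ^ 2 * (w z - ℓ) ^ 2)) = (1 + η) * (ℓ ^ 2 * N) +
          (1 + 1 / η) * ∫ z in disc, U φ τ z ^ 2 * (w z - ℓ) ^ 2 := by
        rw [integral_add (integrableOn_disc (by fun_prop)) (integrableOn_disc (by fun_prop)),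
          integral_const_mul, integral_const_mul, integral_const_mul]
      rw [h2] at h1
      refine h1.trans ?_
      gcongr
    -- the energy on the segment
    have hsegE : α * ℓ ^ 2 ≤ ∫ z, ‖fderiv ℝ u z‖ ^ 2 ∂(segMeasure a b θ) := by
      rw [hseg (fun z => ‖fderiv ℝ u z‖ ^ 2) (by fun_prop)]
      have h1 := segment_bound (τ := τ) hφ hab hg hfg k hk0 (u := u) (w := w)
        (hu.1.of_le (by simp))
        (fun t ht => by
          have hz : (t : ℂ) ∈ disc := by
            have h1 : |t| < 1 := by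
              rw [abs_lt]; constructor <;> linarith [ht.1, ht.2]
            simpa [mem_ball, dist_zero_right] using h1
          have hUz := U_pos hτ hpos hz
          have h2 : U φ τ (t : ℂ) = φ (τ * t ^ 2) := by
            unfold U
            rw [Complex.norm_real, Real.norm_eq_abs, sq_abs]
          rw [hw]; simp only
          rw [← h2, div_mul_cancel₀ _ hUz.ne']) ℓ B hB hℓ
      have h2 : α * ℓ ^ 2 = θ * ((b - a) * (1 - 1 / (2 * k + 1)) * g ^ 2 * ℓ ^ 2) := by
        rw [hα, hA]; ring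
      rw [h2]
      gcongr
    -- conclusion
    rw [le_div_iff₀ hSpos]
    unfold energy
    rw [hgr]
    have hkey : m * α / ((1 + η) * N) * S ≤ E + m * (α * ℓ ^ 2) := by
      have h1 : m * α / ((1 + η) * N) * S ≤ m * α / ((1 + η) * N) *
          ((1 + η) * (ℓ ^ 2 * N) + (1 + 1 / η) * (C * E)) := by gcongr
      have h2 : m * α / ((1 + η) * N) *
          ((1 + η) * (ℓ ^ 2 * N) + (1 + 1 / η) * (C * E)) =
          m * (α * ℓ ^ 2) + m * α * C / (η * N) * E := by
        field_simp
        ring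
      have h3 : m * α * C / (η * N) ≤ 1 := by
        rw [div_le_one (by positivity)]
        calc m * α * C ≤ m * A * C := by gcongr
          _ ≤ _ := hmC
      have h4 : m * α * C / (η * N) * E ≤ 1 * E := by gcongr
      linarith
    have hcoef : m * (A - δ) / N ≤ m * α / ((1 + η) * N) := by
      rw [div_le_div_iff₀ hN (by positivity)]
      have h1 : (A - δ) * (1 + η) ≤ α := by
        have h2 : (A - δ) * (1 + η) = A - δ + A * η - δ * η := by ring
        rw [h2, hηA]
        have : 0 ≤ δ * η := by positivity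
        linarith
      calc m * (A - δ) * ((1 + η) * N) = m * N * ((A - δ) * (1 + η)) := by ring
        _ ≤ m * N * α := by gcongr
        _ = m * α * N := by ring
    have h5 : m * (A - δ) / N * S ≤ m * α / ((1 + η) * N) * S := by gcongr
    have h6 : m * (α * ℓ ^ 2) ≤ m * ∫ z, ‖fderiv ℝ u z‖ ^ 2 ∂(segMeasure a b θ) := by gcongr
    calc (4 * τ + m * (A - δ) / N) * S = 4 * τ * S + m * (A - δ) / N * S := by ring
      _ ≤ 4 * τ * S + (E + m * ∫ z, ‖fderiv ℝ u z‖ ^ 2 ∂(segMeasure a b θ)) := by linarith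
      _ = _ := by ring

end Pool.Agent.Q289.SF
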