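import Pool.Agent.Q289.SF.Stm

open MeasureTheory Set Metric

namespace Pool.Agent.Q289.SF

noncomputable def cf (j k : ℕ) : ℝ := (-1) ^ (j + k) / (k.factorial * (k + j).factorial)

noncomputable def Ph (j : ℕ) (t : ℝ) : ℝ := ∑' k : ℕ, cf j k * t ^ k

theorem cf_abs (j k : ℕ) : |cf j k| ≤ 1 / k.factorial := by
  unfold cf
  rw [abs_div, abs_pow, abs_neg, abs_one, one_pow, abs_of_pos (by positivity)]
  apply one_div_le_one_div_of_le (by positivity)
  have : (1 : ℝ) ≤ (k + j).factorial := by exact_mod_cast (Nat.factorial_pos _)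
  nlinarith [(Nat.cast_pos (α := ℝ)).2 k.factorial_pos]

theorem cf_succ (j k : ℕ) : cf j (k + 1) * (k + 1 : ℕ) = cf (j + 1) k := by
  unfold cf
  have h1 : k + 1 + j = k + (j + 1) := by ring
  have h2 : j + (k + 1) = j + 1 + k := by ring
  rw [h1, h2, Nat.factorial_succ k]
  push_cast
  have : (k.factorial : ℝ) ≠ 0 := by positivity
  have : (((k + (j + 1)).factorial : ℕ) : ℝ) ≠ 0 := by positivity
  have : ((k : ℝ) + 1) ≠ 0 := by positivity
  field_simp

theorem summ (j : ℕ) (t : ℝ) : Summable fun k : ℕ => cf j k * t ^ k := by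
  refine Summable.of_norm_bounded (Real.summable_pow_div_factorial |t|) fun k => ?_
  rw [Real.norm_eq_abs, abs_mul, abs_pow]
  calc |cf j k| * |t| ^ k ≤ 1 / k.factorial * |t| ^ k := by
        have := cf_abs j k
        gcongr
    _ = |t| ^ k / k.factorial := by ring

theorem Ph_hasDeriv (j : ℕ) (t : ℝ) : HasDerivAt (Ph j) (Ph (j + 1) t) t := by
  set R := |t| + 1 with hR
  have hR1 : 1 ≤ R := by rw [hR]; linarith [abs_nonneg t]
  have h := hasDerivAt_tsum_of_isPreconnected (𝕜 := ℝ) (F := ℝ)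
    (u := fun k : ℕ => (2 * R) ^ k / k.factorial)
    (g := fun (k : ℕ) (y : ℝ) => cf j k * y ^ k)
    (g' := fun (k : ℕ) (y : ℝ) => cf j k * (k * y ^ (k - 1)))
    (t := ball (0 : ℝ) R) (y₀ := t) (y := t)
    (Real.summable_pow_div_factorial (2 * R)) isOpen_ball
    ((convex_ball (0 : ℝ) R).isPreconnected)
    (fun k y _ => (hasDerivAt_pow k y).const_mul (cf j k))
    (fun k y hy => by
      have hy1 : |y| < R := by simpa using hy
      rw [Real.norm_eq_abs, abs_mul, abs_mul, abs_pow, Nat.abs_cast]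
      have h1 := cf_abs j k
      have h2 : (k : ℝ) ≤ 2 ^ k := by exact_mod_cast (Nat.lt_two_pow_self (n := k)).le
      have h3 : |y| ^ (k - 1) ≤ R ^ k := by
        calc |y| ^ (k - 1) ≤ R ^ (k - 1) := by gcongr
          _ ≤ R ^ k := pow_le_pow_right₀ hR1 (Nat.sub_le _ _)
      calc |cf j k| * (k * |y| ^ (k - 1)) ≤ 1 / k.factorial * (2 ^ k * R ^ k) := by gcongr
        _ = (2 * R) ^ k / k.factorial := by rw [mul_pow]; ring)
    (by simp [hR]) (summ j t) (by simp [hR])
  have h2 : ∑' k : ℕ, cf j k * (k * t ^ (k - 1)) = Ph (j + 1) t := by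
    have hs : Summable fun k : ℕ => cf j k * (k * t ^ (k - 1)) := by
      rw [← summable_nat_add_iff 1]
      refine (summ (j + 1) t).congr fun k => ?_
      rw [← cf_succ]
      simp
      ring
    rw [hs.tsum_eq_zero_add]
    simp only [Nat.cast_zero, zero_mul, mul_zero, zero_add]
    unfold Ph
    apply tsum_congr
    intro k
    rw [← cf_succ]
    simp
    ring
  rw [h2] at h
  exact h

theorem Ph_deriv (j : ℕ) : deriv (Ph j) = Ph (j + 1) := funext fun t => (Ph_hasDeriv j t).deriv

theorem Ph_contDiff (j : ℕ) : ContDiff ℝ (⊤ : ℕ∞) (Ph j) := by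
  rw [contDiff_infty]
  intro n
  induction n generalizing j with
  | zero =>
    rw [Nat.cast_zero, contDiff_zero]
    exact continuous_iff_continuousAt.2 fun t => (Ph_hasDeriv j t).continuousAt
  | succ n ih =>
    rw [Nat.cast_succ, contDiff_succ_iff_deriv]
    refine ⟨fun t => (Ph_hasDeriv j t).differentiableAt, by simp, ?_⟩
    rw [Ph_deriv]
    exact ih (j + 1)

theorem Ph_ode (t : ℝ) : t * Ph 2 t + Ph 1 t + Ph 0 t = 0 := by
  have h1 : Ph 1 t + Ph 0 t = ∑' k : ℕ, (cf 1 k + cf 0 k) * t ^ k := by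
    unfold Ph
    rw [← (summ 1 t).tsum_add (summ 0 t)]
    apply tsum_congr
    intro k; ring
  have hs : Summable fun k : ℕ => (cf 1 k + cf 0 k) * t ^ k := by
    refine ((summ 1 t).add (summ 0 t)).congr fun k => ?_
    ring
  have h2 : t * Ph 2 t = ∑' k : ℕ, cf 2 k * t ^ (k + 1) := by
    unfold Ph
    rw [← tsum_mul_left]
    apply tsum_congr
    intro k; ring
  have hs2 : Summable fun k : ℕ => cf 2 k * t ^ (k + 1) := by
    refine ((summ 2 t).mul_left t).congr fun k => ?_
    ring
  have hs3 : Summable fun k : ℕ => (cf 1 (k + 1) + cf 0 (k + 1)) * t ^ (k + 1) :=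
    (summable_nat_add_iff (f := fun k : ℕ => (cf 1 k + cf 0 k) * t ^ k) 1).2 hs
  rw [add_assoc, h1, h2, hs.tsum_eq_zero_add]
  have h0 : (cf 1 0 + cf 0 0) * t ^ 0 = 0 := by
    unfold cf; norm_num
  rw [h0, zero_add, ← hs2.tsum_add hs3]
  have : ∀ k : ℕ, cf 2 k * t ^ (k + 1) + (cf 1 (k + 1) + cf 0 (k + 1)) * t ^ (k + 1) = 0 := by
    intro k
    have hc : cf 2 k + cf 1 (k + 1) + cf 0 (k + 1) = 0 := by
      unfold cf
      have e1 : k + 1 + 1 = k + 2 := rfl
      have e2 : (k + 1).factorial = (k + 1) * k.factorial := Nat.factorial_succ k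
      have e3 : (k + 2).factorial = (k + 2) * ((k + 1) * k.factorial) := by
        rw [← e2]; exact Nat.factorial_succ (k + 1)
      rw [e1, e3, add_zero, e2]
      push_cast
      have : (k.factorial : ℝ) ≠ 0 := by positivity
      have : ((k : ℝ) + 1) ≠ 0 := by positivity
      have : ((k : ℝ) + 2) ≠ 0 := by positivity
      have p1 : (-1 : ℝ) ^ (2 + k) = (-1) ^ k := by rw [pow_add]; norm_num
      have p2 : (-1 : ℝ) ^ (1 + (k + 1)) = (-1) ^ k := by
        rw [show 1 + (k + 1) = k + 2 by ring, pow_add]; norm_num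
      have p3 : (-1 : ℝ) ^ (0 + (k + 1)) = -(-1) ^ k := by
        rw [show 0 + (k + 1) = k + 1 by ring, pow_add]; norm_num
      rw [p1, p2, p3]
      field_simp
      ring
    calc _ = (cf 2 k + cf 1 (k + 1) + cf 0 (k + 1)) * t ^ (k + 1) := by ring
      _ = 0 := by rw [hc, zero_mul]
  rw [tsum_congr this, tsum_zero]

theorem Ph_zero : Ph 0 0 = 1 := by
  unfold Ph
  rw [tsum_eq_single 0]
  · unfold cf; simp
  · intro k hk
    rw [zero_pow hk, mul_zero]

theorem profile : ProfileStm := by
  set φ := Ph 0 with hφ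
  have hd : deriv φ = Ph 1 := Ph_deriv 0
  have hdd : deriv (deriv φ) = Ph 2 := by rw [hd]; exact Ph_deriv 1
  have hode : ∀ t, t * deriv (deriv φ) t + deriv φ t + φ t = 0 := by
    intro t
    rw [hdd, hd]
    exact Ph_ode t
  have hφ0 : φ 0 = 1 := Ph_zero
  have hφc : Continuous φ := (Ph_contDiff 0).continuous
  have hq : ∀ t, HasDerivAt (fun t => t * Ph 1 t) (-φ t) t := by
    intro t
    have h1 := (hasDerivAt_id t).mul (Ph_hasDeriv 1 t)
    have h2 := Ph_ode t
    have h3 : -φ t = 1 * Ph 1 t + id t * Ph (1 + 1) t := by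
      simp only [id]
      change -Ph 0 t = 1 * Ph 1 t + t * Ph 2 t
      linarith
    rw [h3]
    exact h1
  -- generic: if φ > 0 on [0,s) then s φ'(s) < 0
  have hqneg : ∀ s, 0 < s → (∀ t ∈ Ico 0 s, 0 < φ t) → Ph 1 s < 0 := by
    intro s hs hp
    have h1 : StrictAntiOn (fun t => t * Ph 1 t) (Icc 0 s) := by
      apply strictAntiOn_of_deriv_neg (convex_Icc 0 s)
      · exact fun t _ => (hq t).continuousAt.continuousWithinAt
      · intro t ht
        rw [interior_Icc] at ht
        rw [(hq t).deriv]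
        have := hp t ⟨ht.1.le, ht.2⟩
        linarith
    have h2 := h1 ⟨le_rfl, hs.le⟩ ⟨hs.le, le_rfl⟩ hs
    simp only [zero_mul] at h2
    by_contra h3
    have h4 : 0 ≤ s * Ph 1 s := mul_nonneg hs.le (not_lt.1 h3)
    linarith
  -- existence of a zero
  have hex : ∃ t, 0 ≤ t ∧ φ t = 0 := by
    by_contra hno
    push Not at hno
    have hposall : ∀ t, 0 ≤ t → 0 < φ t := by
      intro t ht
      by_contra hneg
      have h1 : φ t ≤ 0 := not_lt.1 hneg
      have h2 : (0 : ℝ) ∈ φ '' Icc 0 t := by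
        apply intermediate_value_Icc' ht hφc.continuousOn
        exact ⟨h1, by rw [hφ0]; norm_num⟩
      obtain ⟨s, hs, hs0⟩ := h2
      exact hno s hs.1 hs0
    set c := -(Ph 1 1) with hc
    have hcpos : 0 < c := by
      have := hqneg 1 one_pos fun t ht => hposall t ht.1
      rw [hc]; linarith
    have hanti : AntitoneOn (fun t => t * Ph 1 t) (Ici 1) := by
      apply antitoneOn_of_deriv_nonpos (convex_Ici 1)
      · exact fun t _ => (hq t).continuousAt.continuousWithinAt
      · exact fun t _ => (hq t).differentiableAt.differentiableWithinAt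
      · intro t ht
        rw [interior_Ici] at ht
        rw [(hq t).deriv]
        have h1 : (1 : ℝ) < t := ht
        have := hposall t (by linarith)
        linarith
    have hanti2 : AntitoneOn (fun t => φ t + c * Real.log t) (Ici 1) := by
      have hder : ∀ t, 1 ≤ t → HasDerivAt (fun t => φ t + c * Real.log t)
          (Ph 1 t + c * t⁻¹) t := by
        intro t ht
        exact (Ph_hasDeriv 0 t).add ((Real.hasDerivAt_log (by linarith)).const_mul c)
      apply antitoneOn_of_deriv_nonpos (convex_Ici 1)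
      · exact fun t ht => (hder t ht).continuousAt.continuousWithinAt
      · intro t ht
        rw [interior_Ici] at ht
        exact (hder t (le_of_lt ht)).differentiableAt.differentiableWithinAt
      · intro t ht
        rw [interior_Ici] at ht
        have ht1 : (1 : ℝ) < t := ht
        rw [(hder t ht1.le).deriv]
        have h1 := hanti (a := 1) (b := t) (mem_Ici.2 le_rfl) (mem_Ici.2 ht1.le) ht1.le
        simp only [one_mul] at h1
        have h2 : Ph 1 t + c * t⁻¹ = (t * Ph 1 t + c) * t⁻¹ := by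
          field_simp
        rw [h2]
        apply mul_nonpos_of_nonpos_of_nonneg
        · rw [hc]; linarith
        · positivity
    have hφ1 : 0 < φ 1 := hposall 1 zero_le_one
    set T := Real.exp (φ 1 / c) with hT
    have hT1 : 1 ≤ T := Real.one_le_exp (by positivity)
    have h1 := hanti2 (a := 1) (b := T) (mem_Ici.2 le_rfl) (mem_Ici.2 hT1) hT1
    simp only [Real.log_one, mul_zero, add_zero] at h1
    rw [hT, Real.log_exp, mul_div_cancel₀ _ hcpos.ne'] at h1
    have h2 := hposall T (by linarith)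
    rw [hT] at h2
    linarith
  -- the first zero
  set Z : Set ℝ := {t | 0 ≤ t ∧ φ t = 0} with hZ
  have hZc : IsClosed Z := by
    have : Z = Ici 0 ∩ φ ⁻¹' {0} := by ext t; simp [hZ]
    rw [this]
    exact isClosed_Ici.inter (isClosed_singleton.preimage hφc)
  have hZne : Z.Nonempty := hex
  have hZb : BddBelow Z := ⟨0, fun t ht => ht.1⟩
  have hτZ : sInf Z ∈ Z := hZc.csInf_mem hZne hZb
  set τ := sInf Z with hτ
  have hτ0 : 0 < τ := by
    rcases hτZ.1.eq_or_lt with h | h
    · exfalso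
      have := hτZ.2
      rw [← h, hφ0] at this
      norm_num at this
    · exact h
  have hpos : ∀ t ∈ Ico 0 τ, 0 < φ t := by
    intro t ht
    by_contra hneg
    have h1 : φ t ≤ 0 := not_lt.1 hneg
    have h2 : (0 : ℝ) ∈ φ '' Icc 0 t := by
      apply intermediate_value_Icc' ht.1 hφc.continuousOn
      exact ⟨h1, by rw [hφ0]; norm_num⟩
    obtain ⟨s, hs, hs0⟩ := h2
    have h3 : τ ≤ s := csInf_le hZb ⟨hs.1, hs0⟩
    linarith [hs.2, ht.2]
  refine ⟨φ, τ, Ph_contDiff 0, hτ0, hode, hφ0, hτZ.2, hpos, ?_⟩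
  intro t ht
  rw [hd]
  rcases ht.1.eq_or_lt with h | h
  · have h1 := Ph_ode 0
    have h2 : Ph 0 0 = 1 := Ph_zero
    rw [← h]
    linarith
  · exact hqneg t h fun s hs => hpos s ⟨hs.1, hs.2.trans_le ht.2⟩

end Pool.Agent.Q289.SF
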