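import Pool.Agent.Q289.SF.Stm

open MeasureTheory Set Metric

namespace Pool.Agent.Q289.SF

theorem emb : MeasurableEmbedding (fun t : ℝ => (t : ℂ)) :=
  Complex.isometry_ofReal.isClosedEmbedding.measurableEmbedding

theorem seg_image_closed (a b : ℝ) : IsClosed ((fun t : ℝ => (t : ℂ)) '' Icc a b) :=
  (isCompact_Icc.image Complex.continuous_ofReal).isClosed

theorem seg_support {a b θ : ℝ} (hab : a < b) (hθ : 0 < θ) :
    (segMeasure a b θ).support = (fun t : ℝ => (t : ℂ)) '' Icc a b := by
  apply Subset.antisymm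
  · apply Measure.support_subset_of_isClosed (seg_image_closed a b)
    rw [mem_ae_iff]
    unfold segMeasure
    rw [Measure.smul_apply, Measure.map_apply Complex.measurable_ofReal
      (seg_image_closed a b).measurableSet.compl]
    have : (fun t : ℝ => (t : ℂ)) ⁻¹' ((fun t : ℝ => (t : ℂ)) '' Icc a b)ᶜ = (Icc a b)ᶜ := by
      rw [preimage_compl, preimage_image_eq _ Complex.ofReal_injective]
    rw [this, Measure.restrict_apply measurableSet_Icc.compl]
    simp
  · rintro _ ⟨t, ht, rfl⟩
    rw [Measure.mem_support_iff_forall]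
    intro V hV
    have h1 : (fun t : ℝ => (t : ℂ)) ⁻¹' V ∈ nhds t :=
      Complex.continuous_ofReal.continuousAt.preimage_mem_nhds hV
    obtain ⟨W, hWV, hWo, htW⟩ := _root_.mem_nhds_iff.1 h1
    have hcl : t ∈ closure (Ioo a b) := by rwa [closure_Ioo hab.ne]
    obtain ⟨s, hsW, hsI⟩ := mem_closure_iff.1 hcl W hWo htW
    have h2 : 0 < (volume : Measure ℝ) (W ∩ Ioo a b) :=
      (hWo.inter isOpen_Ioo).measure_pos volume ⟨s, hsW, hsI⟩
    unfold segMeasure
    rw [Measure.smul_apply, smul_eq_mul]
    apply ENNReal.mul_pos (by simpa using hθ)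
    apply ne_of_gt
    rw [emb.map_apply]
    refine lt_of_lt_of_le h2 ?_
    refine (measure_mono (fun x hx => ?_)).trans (Measure.le_restrict_apply _ _)
    exact ⟨hWV hx.1, Ioo_subset_Icc_self hx.2⟩

theorem seg : SegStm := by
  intro a b L ha hab hb hL
  have hpos : 0 < b - a := sub_pos.2 hab
  have hθ1 : 1 ≤ L / (b - a) := by rw [le_div_iff₀ hpos]; linarith
  have hθ : 0 < L / (b - a) := by linarith
  have hsup := seg_support hab hθ
  have hsub : (segMeasure a b (L / (b - a))).support ⊆ disc := by
    rw [hsup]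
    rintro _ ⟨t, ht, rfl⟩
    have h1 : |t| < 1 := by
      rw [abs_lt]; constructor <;> linarith [ht.1, ht.2]
    simpa [mem_ball, dist_zero_right] using h1
  refine ⟨⟨?_, ?_, ?_, ?_⟩, hsub, ?_⟩
  · have h1 : (segMeasure a b (L / (b - a))) (segMeasure a b (L / (b - a))).supportᶜ = 0 :=
      Measure.measure_compl_support
    refine measure_mono_null ?_ h1
    exact compl_subset_compl.2 (hsub.trans subset_closure)
  · unfold segMeasure
    rw [Measure.smul_apply, Measure.map_apply Complex.measurable_ofReal MeasurableSet.univ,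
      preimage_univ, Measure.restrict_apply_univ, Real.volume_Icc, smul_eq_mul,
      ← ENNReal.ofReal_mul hθ.le]
    apply le_of_eq
    congr 1
    field_simp
  · rw [hsup]
    exact (isConnected_Icc hab.le).image _ Complex.continuous_ofReal.continuousOn
  · rw [hsup]
    have h1 : (μH[1] : Measure ℂ).restrict ((fun t : ℝ => (t : ℂ)) '' Icc a b) =
        (volume.restrict (Icc a b)).map (fun t : ℝ => (t : ℂ)) := by
      ext1 s hs
      rw [Measure.restrict_apply hs, emb.map_apply, Measure.restrict_apply
        (Complex.measurable_ofReal hs)]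
      have h3 : s ∩ (fun t : ℝ => (t : ℂ)) '' Icc a b =
          (fun t : ℝ => (t : ℂ)) '' ((fun t : ℝ => (t : ℂ)) ⁻¹' s ∩ Icc a b) := by
        rw [image_preimage_inter]
      rw [h3, Complex.isometry_ofReal.hausdorffMeasure_image (Or.inl zero_le_one),
        hausdorffMeasure_real]
    rw [h1]
    unfold segMeasure
    refine Measure.le_iff.2 fun s _ => ?_
    rw [Measure.smul_apply, smul_eq_mul]
    exact le_mul_of_one_le_left zero_le (ENNReal.one_le_ofReal.2 hθ1)
  · intro g hg
    unfold segMeasure
    rw [integral_smul_measure, integral_map Complex.measurable_ofReal.aemeasurable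
      hg.aestronglyMeasurable, ENNReal.toReal_ofReal hθ.le, integral_Icc_eq_integral_Ioc,
      ← intervalIntegral.integral_of_le hab.le, smul_eq_mul]

end Pool.Agent.Q289.SF
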