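import Mathlib

/-!
Connected stiffeners of a membrane (MP_a4170f_an): definitions and lemma statements.
The plane is `ℂ` with its Euclidean norm and Lebesgue measure.
-/

open MeasureTheory Set Metric

namespace Pool.Agent.Q289.SF

/-- `u` is a real function of class `C_c^∞(Ω)`. -/
def IsTest (Ω : Set ℂ) (u : ℂ → ℝ) : Prop :=
  ContDiff ℝ (⊤ : ℕ∞) u ∧ HasCompactSupport u ∧ tsupport u ⊆ Ω

/-- `∫_Ω |∇u|² dx + m ∫ |∇u|² dμ`. -/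
noncomputable def energy (Ω : Set ℂ) (m : ℝ) (μ : Measure ℂ) (u : ℂ → ℝ) : ℝ :=
  (∫ z in Ω, ‖fderiv ℝ u z‖ ^ 2) + m * ∫ z, ‖fderiv ℝ u z‖ ^ 2 ∂μ

/-- The first eigenvalue `λ₁(μ)`, the infimum of the quotients. -/
noncomputable def lam (Ω : Set ℂ) (m : ℝ) (μ : Measure ℂ) : ℝ :=
  sInf {q : ℝ | ∃ u : ℂ → ℝ, IsTest Ω u ∧ u ≠ 0 ∧
    q = energy Ω m μ u / ∫ z in Ω, u z ^ 2}

/-- The class `𝒜ᶜ_L` of connected stiffeners of `Ω`. -/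
structure Adm (Ω : Set ℂ) (L : ℝ) (μ : Measure ℂ) : Prop where
  carried : μ (closure Ω)ᶜ = 0
  mass : μ univ ≤ ENNReal.ofReal L
  conn : IsConnected μ.support
  ge : (μH[1] : Measure ℂ).restrict μ.support ≤ μ

/-- The open unit disc. -/
abbrev disc : Set ℂ := ball (0 : ℂ) 1

/-- The radial function `z ↦ φ(τ|z|²)`. -/
noncomputable def U (φ : ℝ → ℝ) (τ : ℝ) (z : ℂ) : ℝ := φ (τ * ‖z‖ ^ 2)

/-- J1: the profile of the first eigenfunction of the disc,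
`φ(t) = ∑ (-1)^k t^k / (k!)^2` up to its first zero. -/
def ProfileStm : Prop :=
  ∃ (φ : ℝ → ℝ) (τ : ℝ), ContDiff ℝ (⊤ : ℕ∞) φ ∧ 0 < τ ∧
    (∀ t, t * deriv (deriv φ) t + deriv φ t + φ t = 0) ∧ φ 0 = 1 ∧ φ τ = 0 ∧
    (∀ t ∈ Ico 0 τ, 0 < φ t) ∧ ∀ t ∈ Icc 0 τ, deriv φ t < 0

/-- J2: weighted Poincaré inequality in the disc with a mean over a radial segment. -/
def WeightedStm : Prop :=
  ∀ (f k : ℝ → ℝ) (a b : ℝ), Continuous f → AntitoneOn f (Icc 0 1) →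
    (∀ t ∈ Ico (0 : ℝ) 1, 0 < f t) → 0 ≤ f 1 → 0 < a → a < b → b < 1 →
    Continuous k → (∫ s in a..b, k s) = 1 →
    ∃ C : ℝ, 0 < C ∧ ∀ w : ℂ → ℝ, ContDiff ℝ 1 w →
      ∫ z in disc, f ‖z‖ ^ 2 * (w z - ∫ s in a..b, k s * w (s : ℂ)) ^ 2 ≤
        C * ∫ z in disc, f ‖z‖ ^ 2 * ‖fderiv ℝ w z‖ ^ 2

/-- The uniform measure of density `θ` on the real segment `[a,b]`. -/
noncomputable def segMeasure (a b θ : ℝ) : Measure ℂ :=
  ENNReal.ofReal θ • (volume.restrict (Icc a b)).map (fun t : ℝ => (t : ℂ))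

/-- J3: the segment measure is admissible, with support in the open disc. -/
def SegStm : Prop :=
  ∀ a b L : ℝ, 0 < a → a < b → b < 1 → b - a ≤ L →
    Adm disc L (segMeasure a b (L / (b - a))) ∧
    (segMeasure a b (L / (b - a))).support ⊆ disc ∧
    ∀ g : ℂ → ℝ, Continuous g →
      ∫ z, g z ∂(segMeasure a b (L / (b - a))) = L / (b - a) * ∫ t in a..b, g (t : ℂ)

/-- J4: an admissible measure whose support meets the unit circle loses a fixed amount. -/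
def TouchStm : Prop :=
  ∀ (P : ℂ → ℝ) (M κ r L : ℝ), Continuous P → (∀ z, 0 ≤ P z) → 0 < L → 0 < κ → κ ≤ M →
    0 < r → r < 1 → (∀ z ∈ closedBall (0 : ℂ) 1, P z ≤ M) →
    (∀ z ∈ closedBall (0 : ℂ) 1, r ≤ ‖z‖ → P z ≤ M - κ) →
    ∀ μ : Measure ℂ, Adm disc L μ → (μ.support ∩ frontier disc).Nonempty →
      ∫ z, P z ∂μ ≤ M * L - κ * min L (1 - r)

/-- J5: integration by parts against the eigenfunction. -/
def IbpStm : Prop :=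
  ∀ (φ : ℝ → ℝ) (τ : ℝ), ContDiff ℝ (⊤ : ℕ∞) φ →
    (∀ t, t * deriv (deriv φ) t + deriv φ t + φ t = 0) →
    ∀ g : ℂ → ℝ, ContDiff ℝ (⊤ : ℕ∞) g → HasCompactSupport g →
      ∫ z, (fderiv ℝ (U φ τ) z 1 * fderiv ℝ g z 1 +
        fderiv ℝ (U φ τ) z Complex.I * fderiv ℝ g z Complex.I) =
        4 * τ * ∫ z, U φ τ z * g z

/-- J6: upper bound of `λ₁` by the eigenfunction of the disc. -/
def UpperStm : Prop :=
  ∀ (φ : ℝ → ℝ) (τ : ℝ), ContDiff ℝ (⊤ : ℕ∞) φ → 0 < τ →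
    (∀ t, t * deriv (deriv φ) t + deriv φ t + φ t = 0) → φ τ = 0 →
    (∀ t ∈ Ico 0 τ, 0 < φ t) →
    ∀ (m : ℝ) (μ : Measure ℂ), 0 < m → IsFiniteMeasure μ → μ (closure disc)ᶜ = 0 →
      lam disc m μ ≤ 4 * τ + m * (∫ z, ‖fderiv ℝ (U φ τ) z‖ ^ 2 ∂μ) /
        ∫ z in disc, U φ τ z ^ 2

/-- J7: ground state representation. -/
def GroundStm : Prop :=
  ∀ (φ : ℝ → ℝ) (τ : ℝ), ContDiff ℝ (⊤ : ℕ∞) φ → 0 < τ →
    (∀ t, t * deriv (deriv φ) t + deriv φ t + φ t = 0) →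
    (∀ t ∈ Ico 0 τ, 0 < φ t) →
    ∀ u : ℂ → ℝ, IsTest disc u →
      ContDiff ℝ (⊤ : ℕ∞) (fun z => u z / U φ τ z) ∧
      (∫ z in disc, ‖fderiv ℝ u z‖ ^ 2) = 4 * τ * (∫ z in disc, u z ^ 2) +
        ∫ z in disc, U φ τ z ^ 2 * ‖fderiv ℝ (fun z => u z / U φ τ z) z‖ ^ 2

end Pool.Agent.Q289.SF
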