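import Pool.Agent.Q289.SF.Upper

open MeasureTheory Set Metric

namespace Pool.Agent.Q289.SF

theorem touch : TouchStm := by
  intro P M κ r L hPc hP0 hL hκ hκM hr0 hr1 hPM hPκ μ hμ hS
  have hfin : IsFiniteMeasure μ := ⟨lt_of_le_of_lt hμ.mass ENNReal.ofReal_lt_top⟩
  have hmass : μ.real univ ≤ L := by
    unfold Measure.real
    exact ENNReal.toReal_le_of_le_ofReal hL.le hμ.mass
  set A : Set ℂ := {z | r ≤ ‖z‖} with hA
  have hAm : MeasurableSet A := measurableSet_le measurable_const measurable_norm
  have hPi : Integrable P μ := integrable_carried hμ.carried hPc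
  have hae : ∀ᵐ z ∂μ, z ∈ closedBall (0 : ℂ) 1 := by
    rw [ae_iff]
    have := hμ.carried
    rw [closure_ball (0 : ℂ) one_ne_zero] at this
    exact this
  have hint : ∫ z, P z ∂μ ≤ M * μ.real univ - κ * μ.real A := by
    have h1 : ∫ z, P z ∂μ ≤ ∫ z, (M - A.indicator (fun _ => κ) z) ∂μ := by
      apply integral_mono_ae hPi
      · exact (integrable_const M).sub ((integrable_const κ).indicator hAm)
      · filter_upwards [hae] with z hz
        by_cases hzA : z ∈ A
        · rw [indicator_of_mem hzA]
          exact hPκ z hz hzA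
        · rw [indicator_of_notMem hzA, sub_zero]
          exact hPM z hz
    have h2 : ∫ z, (M - A.indicator (fun _ => κ) z) ∂μ = M * μ.real univ - κ * μ.real A := by
      rw [integral_sub (integrable_const M) ((integrable_const κ).indicator hAm),
        integral_indicator hAm]
      simp [mul_comm]
    rw [← h2]
    exact h1
  have hM0 : 0 ≤ M := hκ.le.trans hκM
  have hu0 : 0 ≤ μ.real univ := measureReal_nonneg
  have hmin1 : min L (1 - r) ≤ L := min_le_left _ _
  have hmin2 : min L (1 - r) ≤ 1 - r := min_le_right _ _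
  by_cases hcase : μ.support ⊆ A
  · have h1 : μ.real A = μ.real univ := by
      have h2 : μ Aᶜ = 0 := measure_mono_null (compl_subset_compl.2 hcase)
        Measure.measure_compl_support
      have h3 : μ A = μ univ := by
        rw [← measure_add_measure_compl hAm (μ := μ), h2, add_zero]
      unfold Measure.real
      rw [h3]
    rw [h1] at hint
    calc ∫ z, P z ∂μ ≤ (M - κ) * μ.real univ := by linarith
      _ ≤ (M - κ) * L := by
          apply mul_le_mul_of_nonneg_left hmass; linarith
      _ = M * L - κ * L := by ring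
      _ ≤ _ := by
          have := mul_le_mul_of_nonneg_left hmin1 hκ.le
          linarith
  · rw [not_subset] at hcase
    obtain ⟨z0, hz0S, hz0A⟩ := hcase
    obtain ⟨z1, hz1S, hz1F⟩ := hS
    have hz1 : ‖z1‖ = 1 := by
      have h2 : z1 ∈ sphere (0 : ℂ) 1 := by
        rwa [frontier_ball (0 : ℂ) one_ne_zero] at hz1F
      simpa using h2
    have hz0 : ‖z0‖ < r := by
      simpa [hA] using hz0A
    have himg : Icc r 1 ⊆ (fun z : ℂ => ‖z‖) '' (μ.support ∩ A) := by
      have hc : IsPreconnected ((fun z : ℂ => ‖z‖) '' μ.support) :=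
        hμ.conn.isPreconnected.image _ continuous_norm.continuousOn
      intro t ht
      have h3 : t ∈ (fun z : ℂ => ‖z‖) '' μ.support := by
        apply hc.Icc_subset (mem_image_of_mem _ hz0S) (mem_image_of_mem _ hz1S)
        exact ⟨by simpa using hz0.le.trans ht.1, by simpa [hz1] using ht.2⟩
      obtain ⟨z, hz, hzt⟩ := h3
      refine ⟨z, ⟨hz, ?_⟩, hzt⟩
      simp only [hA, mem_setOf_eq]
      have : ‖z‖ = t := hzt
      rw [this]; exact ht.1
    have hvol : ENNReal.ofReal (1 - r) ≤ μ A := by
      calc ENNReal.ofReal (1 - r) = volume (Icc r 1) := by rw [Real.volume_Icc]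
        _ ≤ volume ((fun z : ℂ => ‖z‖) '' (μ.support ∩ A)) := measure_mono himg
        _ = (μH[1] : Measure ℝ) ((fun z : ℂ => ‖z‖) '' (μ.support ∩ A)) := by
            rw [hausdorffMeasure_real]
        _ ≤ ((1 : NNReal) : ENNReal) ^ (1 : ℝ) * (μH[1] : Measure ℂ) (μ.support ∩ A) :=
            (lipschitzWith_one_norm (E := ℂ)).hausdorffMeasure_image_le zero_le_one _
        _ = (μH[1] : Measure ℂ) (μ.support ∩ A) := by simp
        _ = ((μH[1] : Measure ℂ).restrict μ.support) A := by
            rw [Measure.restrict_apply hAm, inter_comm]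
        _ ≤ μ A := hμ.ge A
    have hreal : 1 - r ≤ μ.real A := by
      unfold Measure.real
      rw [ENNReal.ofReal_le_iff_le_toReal (measure_ne_top μ A)] at hvol
      exact hvol
    calc ∫ z, P z ∂μ ≤ M * μ.real univ - κ * μ.real A := hint
      _ ≤ M * L - κ * (1 - r) := by
          have h5 := mul_le_mul_of_nonneg_left hmass hM0
          have h6 := mul_le_mul_of_nonneg_left hreal hκ.le
          linarith
      _ ≤ _ := by
          have := mul_le_mul_of_nonneg_left hmin2 hκ.le
          linarith

end Pool.Agent.Q289.SF
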