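import Pool.Agent.Q289.SF.Ground

open MeasureTheory Set Metric

namespace Pool.Agent.Q289.SF

/-- smooth truncation derivative -/
noncomputable def Tr (ε t : ℝ) : ℝ := Real.smoothTransition (t / ε - 1)

/-- smooth truncation -/
noncomputable def Gr (ε s : ℝ) : ℝ := ∫ t in (0 : ℝ)..s, Tr ε t

theorem Tr_contDiff (ε : ℝ) : ContDiff ℝ (⊤ : ℕ∞) (Tr ε) := by
  unfold Tr
  exact Real.smoothTransition.contDiff.comp ((contDiff_id.div_const ε).sub contDiff_const)

theorem Tr_cont (ε : ℝ) : Continuous (Tr ε) := (Tr_contDiff ε).continuous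

theorem Tr_nonneg (ε t : ℝ) : 0 ≤ Tr ε t := Real.smoothTransition.nonneg _

theorem Tr_le_one (ε t : ℝ) : Tr ε t ≤ 1 := Real.smoothTransition.le_one _

theorem Tr_zero {ε t : ℝ} (hε : 0 < ε) (h : t ≤ ε) : Tr ε t = 0 := by
  apply Real.smoothTransition.zero_of_nonpos
  have : t / ε ≤ 1 := (div_le_one hε).2 h
  linarith

theorem Tr_one {ε t : ℝ} (hε : 0 < ε) (h : 2 * ε ≤ t) : Tr ε t = 1 := by
  apply Real.smoothTransition.one_of_one_le
  have : 2 ≤ t / ε := (le_div_iff₀ hε).2 h
  linarith

theorem Gr_deriv (ε s : ℝ) : HasDerivAt (Gr ε) (Tr ε s) s :=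
  intervalIntegral.integral_hasDerivAt_right ((Tr_cont ε).intervalIntegrable _ _)
    ((Tr_cont ε).stronglyMeasurableAtFilter _ _) (Tr_cont ε).continuousAt

theorem Gr_contDiff (ε : ℝ) : ContDiff ℝ (⊤ : ℕ∞) (Gr ε) := by
  rw [contDiff_infty_iff_deriv]
  refine ⟨fun s => (Gr_deriv ε s).differentiableAt, ?_⟩
  have : deriv (Gr ε) = Tr ε := funext fun s => (Gr_deriv ε s).deriv
  rw [this]
  exact Tr_contDiff ε

theorem Gr_zero {ε s : ℝ} (hε : 0 < ε) (h : s ≤ ε) : Gr ε s = 0 := by
  unfold Gr
  rw [intervalIntegral.integral_congr (g := fun _ => (0 : ℝ))]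
  · simp
  · intro t ht
    apply Tr_zero hε
    have := ht.2
    exact this.trans (max_le hε.le h)

theorem Gr_nonneg {ε s : ℝ} (hs : 0 ≤ s) : 0 ≤ Gr ε s :=
  intervalIntegral.integral_nonneg hs fun t _ => Tr_nonneg ε t

theorem Gr_le {ε s : ℝ} (hs : 0 ≤ s) : Gr ε s ≤ s := by
  have h := intervalIntegral.integral_mono_on hs ((Tr_cont ε).intervalIntegrable 0 s)
    (intervalIntegrable_const : IntervalIntegrable (fun _ => (1 : ℝ)) volume 0 s)
    (fun t _ => Tr_le_one ε t)
  unfold Gr
  simpa using h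

theorem Gr_ge {ε s : ℝ} (hε : 0 < ε) (hs : 0 ≤ s) : s - 2 * ε ≤ Gr ε s := by
  rcases le_total s (2 * ε) with h | h
  · linarith [Gr_nonneg (ε := ε) hs]
  · have h1 : Gr ε s = (∫ t in (0 : ℝ)..(2 * ε), Tr ε t) + ∫ t in (2 * ε)..s, Tr ε t :=
      (intervalIntegral.integral_add_adjacent_intervals ((Tr_cont ε).intervalIntegrable _ _)
        ((Tr_cont ε).intervalIntegrable _ _)).symm
    have h2 : (∫ t in (2 * ε)..s, Tr ε t) = s - 2 * ε := by
      rw [intervalIntegral.integral_congr (g := fun _ => (1 : ℝ))]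
      · simp
      · intro t ht
        rw [uIcc_of_le h] at ht
        exact Tr_one hε ht.1
    have h3 : 0 ≤ ∫ t in (0 : ℝ)..(2 * ε), Tr ε t :=
      intervalIntegral.integral_nonneg (by linarith) fun t _ => Tr_nonneg ε t
    linarith

/-- the test functions approximating the eigenfunction -/
noncomputable def ue (φ : ℝ → ℝ) (τ ε : ℝ) : ℂ → ℝ := disc.indicator fun z => Gr ε (U φ τ z)

theorem frontier_val {φ : ℝ → ℝ} {τ : ℝ} (h0 : φ τ = 0) {z : ℂ} (hz : ‖z‖ = 1) :
    U φ τ z = 0 := by
  simp [U, hz, h0]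

theorem ue_local_zero {φ : ℝ → ℝ} {τ ε : ℝ} (hφ : ContDiff ℝ (⊤ : ℕ∞) φ) (h0 : φ τ = 0)
    (hε : 0 < ε) {z : ℂ} (hz : z ∉ disc) : ∀ᶠ y in nhds z, ue φ τ ε y = 0 := by
  have hUc : Continuous (U φ τ) := (U_contDiff hφ τ).continuous
  have h1 : 1 ≤ ‖z‖ := by simpa using hz
  rcases h1.eq_or_lt with h | h
  · have h2 : U φ τ z < ε := by rw [frontier_val h0 h.symm]; exact hε
    filter_upwards [hUc.continuousAt.eventually (gt_mem_nhds h2)] with y hy
    unfold ue
    by_cases hyd : y ∈ disc
    · rw [indicator_of_mem hyd]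
      exact Gr_zero hε (le_of_lt hy)
    · rw [indicator_of_notMem hyd]
  · filter_upwards [(continuous_norm (E := ℂ)).continuousAt.eventually (lt_mem_nhds h)] with y hy
    unfold ue
    apply indicator_of_notMem
    simp
    exact le_of_lt hy

theorem ue_eventually {φ : ℝ → ℝ} {τ ε : ℝ} {z : ℂ} (hz : z ∈ disc) :
    ue φ τ ε =ᶠ[nhds z] fun z => Gr ε (U φ τ z) := by
  filter_upwards [isOpen_ball.mem_nhds hz] with y hy
  unfold ue
  rw [indicator_of_mem hy]

theorem ue_test {φ : ℝ → ℝ} {τ ε : ℝ} (hφ : ContDiff ℝ (⊤ : ℕ∞) φ) (h0 : φ τ = 0)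
    (hε : 0 < ε) : IsTest disc (ue φ τ ε) := by
  have hUc : Continuous (U φ τ) := (U_contDiff hφ τ).continuous
  have hK : closure (Function.support (ue φ τ ε)) ⊆ closedBall 0 1 ∩ {z | ε ≤ U φ τ z} := by
    apply closure_minimal
    · intro z hz
      simp only [Function.mem_support] at hz
      by_cases hzd : z ∈ disc
      · refine ⟨ball_subset_closedBall hzd, ?_⟩
        by_contra h
        apply hz
        unfold ue
        rw [indicator_of_mem hzd]
        exact Gr_zero hε (le_of_not_ge h)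
      · exact absurd (by unfold ue; rw [indicator_of_notMem hzd]) hz
    · exact isClosed_closedBall.inter (isClosed_le continuous_const hUc)
  refine ⟨?_, ?_, ?_⟩
  · rw [contDiff_iff_contDiffAt]
    intro z
    by_cases hz : z ∈ disc
    · exact ((Gr_contDiff ε).comp (U_contDiff hφ τ)).contDiffAt.congr_of_eventuallyEq
        (ue_eventually hz)
    · have h2 : ue φ τ ε =ᶠ[nhds z] fun _ => 0 := ue_local_zero hφ h0 hε hz
      exact contDiffAt_const.congr_of_eventuallyEq h2
  · exact (isCompact_closedBall (0 : ℂ) 1).of_isClosed_subset isClosed_closure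
      (hK.trans inter_subset_left)
  · refine hK.trans ?_
    intro z hz
    have h1 : ‖z‖ ≤ 1 := by simpa using hz.1
    rcases h1.eq_or_lt with h | h
    · have h2 : ε ≤ U φ τ z := hz.2
      rw [frontier_val h0 h] at h2
      linarith
    · simpa using h

theorem ue_fderiv {φ : ℝ → ℝ} {τ ε : ℝ} (hφ : ContDiff ℝ (⊤ : ℕ∞) φ) {z : ℂ}
    (hz : z ∈ disc) : fderiv ℝ (ue φ τ ε) z = Tr ε (U φ τ z) • fderiv ℝ (U φ τ) z := by
  rw [(ue_eventually hz).fderiv_eq]
  have hUd : Differentiable ℝ (U φ τ) := (U_contDiff hφ τ).differentiable (by simp)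
  exact ((Gr_deriv ε (U φ τ z)).comp_hasFDerivAt z (hUd z).hasFDerivAt).fderiv

theorem lam_le {Ω : Set ℂ} {m : ℝ} {μ : Measure ℂ} (hm : 0 ≤ m) {u : ℂ → ℝ} (hu : IsTest Ω u)
    (h0 : u ≠ 0) : lam Ω m μ ≤ energy Ω m μ u / ∫ z in Ω, u z ^ 2 := by
  apply csInf_le
  · refine ⟨0, ?_⟩
    rintro q ⟨v, _, _, rfl⟩
    apply div_nonneg
    · unfold energy
      apply add_nonneg
      · exact integral_nonneg fun z => by positivity
      · exact mul_nonneg hm (integral_nonneg fun z => by positivity)
    · exact integral_nonneg fun z => by positivity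
  · exact ⟨u, hu, h0, rfl⟩

theorem lam_nonneg {Ω : Set ℂ} {m : ℝ} {μ : Measure ℂ} (hm : 0 ≤ m) : 0 ≤ lam Ω m μ := by
  apply Real.sInf_nonneg
  rintro q ⟨v, _, _, rfl⟩
  apply div_nonneg
  · unfold energy
    apply add_nonneg
    · exact integral_nonneg fun z => by positivity
    · exact mul_nonneg hm (integral_nonneg fun z => by positivity)
  · exact integral_nonneg fun z => by positivity

theorem integrable_carried {μ : Measure ℂ} [IsFiniteMeasure μ] (hμ : μ (closure disc)ᶜ = 0)
    {g : ℂ → ℝ} (hg : Continuous g) : Integrable g μ := by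
  have h1 : IntegrableOn g (closure disc) μ :=
    hg.continuousOn.integrableOn_compact isBounded_ball.isCompact_closure
  have h2 : μ.restrict (closure disc) = μ := Measure.restrict_eq_self_of_ae_mem (by
    rw [ae_iff]; exact hμ)
  rwa [IntegrableOn, h2] at h1

theorem upper : UpperStm := by
  intro φ τ hφ hτ hode h0 hpos m μ hm hfin hμ
  have hUc : Continuous (U φ τ) := (U_contDiff hφ τ).continuous
  have hUfc : Continuous (fderiv ℝ (U φ τ)) := (U_contDiff hφ τ).continuous_fderiv (by simp)
  have hN := N_pos hφ hτ hpos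
  set N := ∫ z in disc, U φ τ z ^ 2 with hNdef
  set N1 := ∫ z in disc, U φ τ z with hN1def
  set I := ∫ z, ‖fderiv ℝ (U φ τ) z‖ ^ 2 ∂μ with hIdef
  have hN1 : 0 ≤ N1 := setIntegral_nonneg measurableSet_ball fun z hz => (U_pos hτ hpos hz).le
  have hI : 0 ≤ I := integral_nonneg fun z => by positivity
  have key : ∀ ε : ℝ, 0 < ε → lam disc m μ * (N - 4 * ε * N1) ≤ 4 * τ * N + m * I := by
    intro ε hε
    by_cases hneg : N - 4 * ε * N1 ≤ 0
    · have := lam_nonneg (Ω := disc) (μ := μ) hm.le
      have h1 : lam disc m μ * (N - 4 * ε * N1) ≤ 0 := mul_nonpos_of_nonneg_of_nonpos this hneg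
      have : 0 ≤ 4 * τ * N + m * I := by positivity
      linarith
    · push Not at hneg
      have ht := ue_test hφ h0 hε (τ := τ)
      set u := ue φ τ ε with hu
      have hud : ∀ z ∈ disc, u z = Gr ε (U φ τ z) := by
        intro z hz
        rw [hu]; unfold ue; rw [indicator_of_mem hz]
      have hufc : Continuous (fderiv ℝ u) := ht.1.continuous_fderiv (by simp)
      have huc : Continuous u := ht.1.continuous
      -- L² norm
      have hL : N - 4 * ε * N1 ≤ ∫ z in disc, u z ^ 2 := by
        have h1 : N - 4 * ε * N1 = ∫ z in disc, (U φ τ z ^ 2 - 4 * ε * U φ τ z) := by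
          rw [integral_sub (integrableOn_disc (by fun_prop)) (integrableOn_disc (by fun_prop)),
            integral_const_mul]
        rw [h1]
        apply setIntegral_mono_on (integrableOn_disc (by fun_prop))
          (integrableOn_disc (by fun_prop)) measurableSet_ball
        intro z hz
        rw [hud z hz]
        have hp := U_pos hτ hpos hz
        have g1 := Gr_nonneg (ε := ε) hp.le
        have g2 := Gr_ge hε hp.le
        rcases le_total (U φ τ z) (2 * ε) with h | h
        · nlinarith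
        · nlinarith
      have hu0 : u ≠ 0 := by
        intro h
        have : ∫ z in disc, u z ^ 2 = 0 := by rw [h]; simp
        linarith
      -- Dirichlet energy
      have hfd : ∀ z, ‖fderiv ℝ u z‖ ^ 2 ≤ ‖fderiv ℝ (U φ τ) z‖ ^ 2 := by
        intro z
        by_cases hz : z ∈ disc
        · rw [hu, ue_fderiv hφ hz, norm_smul, mul_pow]
          have a1 := Tr_nonneg ε (U φ τ z)
          have a2 := Tr_le_one ε (U φ τ z)
          have : ‖Tr ε (U φ τ z)‖ ^ 2 ≤ 1 := by
            rw [Real.norm_eq_abs, sq_abs]; nlinarith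
          calc _ ≤ 1 * ‖fderiv ℝ (U φ τ) z‖ ^ 2 := by gcongr
            _ = _ := one_mul _
        · rw [fderiv_zero_of_notMem ht hz]
          simp
      have hD : ∫ z in disc, ‖fderiv ℝ u z‖ ^ 2 ≤ 4 * τ * N := by
        have hib := ibp φ τ hφ hode u ht.1 ht.2.1
        have hb1 : ∫ z in disc, ‖fderiv ℝ u z‖ ^ 2 ≤
            ∫ z in disc, (fderiv ℝ (U φ τ) z 1 * fderiv ℝ u z 1 +
              fderiv ℝ (U φ τ) z Complex.I * fderiv ℝ u z Complex.I) := by
          apply setIntegral_mono_on (integrableOn_disc (by fun_prop))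
            (integrableOn_disc (by fun_prop)) measurableSet_ball
          intro z hz
          rw [norm_sq_clm, hu, ue_fderiv hφ hz]
          simp only [_root_.smul_apply, smul_eq_mul]
          have a1 := Tr_nonneg ε (U φ τ z)
          have a2 := Tr_le_one ε (U φ τ z)
          have a3 : Tr ε (U φ τ z) ^ 2 ≤ Tr ε (U φ τ z) := by nlinarith
          have a4 : 0 ≤ fderiv ℝ (U φ τ) z 1 ^ 2 + fderiv ℝ (U φ τ) z Complex.I ^ 2 := by
            positivity
          calc _ = Tr ε (U φ τ z) ^ 2 * (fderiv ℝ (U φ τ) z 1 ^ 2 +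
                fderiv ℝ (U φ τ) z Complex.I ^ 2) := by ring
            _ ≤ Tr ε (U φ τ z) * (fderiv ℝ (U φ τ) z 1 ^ 2 +
                fderiv ℝ (U φ τ) z Complex.I ^ 2) := by gcongr
            _ = _ := by ring
        have hb2 : ∫ z in disc, (fderiv ℝ (U φ τ) z 1 * fderiv ℝ u z 1 +
              fderiv ℝ (U φ τ) z Complex.I * fderiv ℝ u z Complex.I) =
              4 * τ * ∫ z in disc, U φ τ z * u z := by
          rw [setInt_eq (fun z hz => by simp [fderiv_zero_of_notMem ht hz]),
            setInt_eq (g := fun z => U φ τ z * u z)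
              (fun z hz => by simp [zero_of_notMem ht hz]), hib]
        have hb3 : ∫ z in disc, U φ τ z * u z ≤ N := by
          apply setIntegral_mono_on (integrableOn_disc (by fun_prop))
            (integrableOn_disc (by fun_prop)) measurableSet_ball
          intro z hz
          rw [hud z hz]
          have hp := U_pos hτ hpos hz
          have g2 := Gr_le (ε := ε) hp.le
          nlinarith
        calc _ ≤ _ := hb1
          _ = _ := hb2
          _ ≤ _ := by gcongr
      have hE : energy disc m μ u ≤ 4 * τ * N + m * I := by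
        unfold energy
        have : ∫ z, ‖fderiv ℝ u z‖ ^ 2 ∂μ ≤ I :=
          integral_mono (integrable_carried hμ (by fun_prop))
            (integrable_carried hμ (by fun_prop)) hfd
        gcongr
      have hlam := lam_le (Ω := disc) (μ := μ) hm.le ht hu0
      have hLpos : 0 < ∫ z in disc, u z ^ 2 := lt_of_lt_of_le hneg hL
      rw [le_div_iff₀ hLpos] at hlam
      have hl0 := lam_nonneg (Ω := disc) (μ := μ) hm.le
      calc lam disc m μ * (N - 4 * ε * N1) ≤ lam disc m μ * ∫ z in disc, u z ^ 2 := by gcongr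
        _ ≤ energy disc m μ u := hlam
        _ ≤ _ := hE
  have hlim : lam disc m μ * N ≤ 4 * τ * N + m * I := by
    refine le_of_forall_pos_le_add fun δ hδ => ?_
    have hl0 := lam_nonneg (Ω := disc) (μ := μ) hm.le
    set ε := δ / (4 * N1 * lam disc m μ + 1) with hεdef
    have hden : 0 < 4 * N1 * lam disc m μ + 1 := by positivity
    have hε : 0 < ε := by positivity
    have h := key ε hε
    have h2 : lam disc m μ * (4 * ε * N1) ≤ δ := by
      have : lam disc m μ * (4 * ε * N1) = ε * (4 * N1 * lam disc m μ) := by ring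
      rw [this]
      calc ε * (4 * N1 * lam disc m μ) ≤ ε * (4 * N1 * lam disc m μ + 1) := by
            gcongr; linarith
        _ = δ := by rw [hεdef]; field_simp
    nlinarith
  have : lam disc m μ ≤ (4 * τ * N + m * I) / N := by
    rw [le_div_iff₀ hN]
    exact hlim
  calc lam disc m μ ≤ (4 * τ * N + m * I) / N := this
    _ = 4 * τ + m * I / N := by field_simp

end Pool.Agent.Q289.SF
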