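import Pool.Agent.Q289.SF.Stm

open MeasureTheory Set Metric

namespace Pool.Agent.Q289.SF

theorem cs1 {x y : ℝ} (hxy : x ≤ y) {h : ℝ → ℝ} (hh : Continuous h) :
    (∫ t in x..y, h t) ^ 2 ≤ (y - x) * ∫ t in x..y, h t ^ 2 := by
  rcases hxy.eq_or_lt with rfl | hlt
  · simp
  · set H := ∫ t in x..y, h t with hH
    set L := y - x with hL
    have hLp : 0 < L := sub_pos.2 hlt
    have h0 : 0 ≤ ∫ t in x..y, (h t - H / L) ^ 2 :=
      intervalIntegral.integral_nonneg hxy fun t _ => by positivity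
    have h1 : ∫ t in x..y, (h t - H / L) ^ 2 =
        (∫ t in x..y, h t ^ 2) - 2 * (H / L) * H + (H / L) ^ 2 * L := by
      have e1 : ∀ t, (h t - H / L) ^ 2 = h t ^ 2 - 2 * (H / L) * h t + (H / L) ^ 2 := by
        intro t; ring
      simp_rw [e1]
      rw [intervalIntegral.integral_add, intervalIntegral.integral_sub,
        intervalIntegral.integral_const_mul, ← hH, intervalIntegral.integral_const, smul_eq_mul]
      · ring
      all_goals exact Continuous.intervalIntegrable (by fun_prop) _ _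
    rw [h1] at h0
    have h2 : 2 * (H / L) * H - (H / L) ^ 2 * L = H ^ 2 / L := by
      field_simp; ring
    have h3 : H ^ 2 / L ≤ ∫ t in x..y, h t ^ 2 := by linarith
    rwa [div_le_iff₀ hLp, mul_comm] at h3

theorem path {x y : ℝ} (hxy : x ≤ y) {g g' d : ℝ → ℝ} (hg : ∀ t, HasDerivAt g (g' t) t)
    (hg' : Continuous g') (hd : Continuous d) (hle : ∀ t, |g' t| ≤ d t) :
    (g y - g x) ^ 2 ≤ (y - x) * ∫ t in x..y, d t ^ 2 := by
  have h1 : ∫ t in x..y, g' t = g y - g x :=
    intervalIntegral.integral_eq_sub_of_hasDerivAt (fun t _ => hg t)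
      (hg'.intervalIntegrable _ _)
  rw [← h1]
  refine (cs1 hxy hg').trans ?_
  apply mul_le_mul_of_nonneg_left _ (sub_nonneg.2 hxy)
  apply intervalIntegral.integral_mono_on hxy
  · exact (hg'.pow 2).intervalIntegrable _ _
  · exact (hd.pow 2).intervalIntegrable _ _
  · intro t _
    rw [← sq_abs (g' t)]
    have := hle t
    gcongr

/-- polar coordinates -/
noncomputable def pol (r θ : ℝ) : ℂ := r * (Real.cos θ + Real.sin θ * Complex.I)

theorem pol_cont : Continuous fun p : ℝ × ℝ => pol p.1 p.2 := by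
  unfold pol; fun_prop

theorem norm_e (θ : ℝ) : ‖((Real.cos θ : ℂ) + Real.sin θ * Complex.I)‖ = 1 := by
  have := Complex.norm_exp_ofReal_mul_I θ
  rw [Complex.exp_mul_I, ← Complex.ofReal_cos, ← Complex.ofReal_sin] at this
  exact this

theorem norm_pol (r θ : ℝ) : ‖pol r θ‖ = |r| := by
  unfold pol
  rw [norm_mul, norm_e, mul_one, Complex.norm_real, Real.norm_eq_abs]

theorem pol_zero (r : ℝ) : pol r 0 = (r : ℂ) := by
  unfold pol; simp

theorem polar_int {g : ℂ → ℝ} (hg : Continuous g) :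
    ∫ z in disc, g z = ∫ θ in (-Real.pi)..Real.pi, ∫ r in (0 : ℝ)..1, r * g (pol r θ) := by
  have hpi : -Real.pi ≤ Real.pi := by linarith [Real.pi_pos]
  have h1 : ∫ z in disc, g z = ∫ z, disc.indicator g z :=
    (integral_indicator measurableSet_ball).symm
  rw [h1, ← Complex.integral_comp_polarCoord_symm]
  have hset : polarCoord.target = Ioi (0 : ℝ) ×ˢ Ioo (-Real.pi) Real.pi := rfl
  have h2 : ∫ p in polarCoord.target, p.1 • disc.indicator g (Complex.polarCoord.symm p) =
      ∫ p in Ioo (0 : ℝ) 1 ×ˢ Ioo (-Real.pi) Real.pi, p.1 * g (pol p.1 p.2) := by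
    have hm : MeasurableSet (Ioo (0 : ℝ) 1 ×ˢ Ioo (-Real.pi) Real.pi) :=
      measurableSet_Ioo.prod measurableSet_Ioo
    have hm2 : MeasurableSet (Ioi (0 : ℝ) ×ˢ Ioo (-Real.pi) Real.pi) :=
      measurableSet_Ioi.prod measurableSet_Ioo
    rw [hset, ← integral_indicator hm2, ← integral_indicator hm]
    congr 1
    funext p
    by_cases hp : p ∈ Ioi (0 : ℝ) ×ˢ Ioo (-Real.pi) Real.pi
    · rw [indicator_of_mem hp]
      have hp0 : 0 < p.1 := hp.1
      have hpe : Complex.polarCoord.symm p = pol p.1 p.2 := by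
        rw [Complex.polarCoord_symm_apply]; rfl
      rw [hpe]
      by_cases hp1 : p.1 < 1
      · have hd : pol p.1 p.2 ∈ disc := by
          rw [mem_ball, dist_zero_right, norm_pol, abs_of_pos hp0]; exact hp1
        have hmem : p ∈ Ioo (0 : ℝ) 1 ×ˢ Ioo (-Real.pi) Real.pi := ⟨⟨hp0, hp1⟩, hp.2⟩
        rw [indicator_of_mem hd, indicator_of_mem hmem, smul_eq_mul]
      · have hd : pol p.1 p.2 ∉ disc := by
          rw [mem_ball, dist_zero_right, norm_pol, abs_of_pos hp0]; exact hp1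
        rw [indicator_of_notMem hd, smul_zero, indicator_of_notMem]
        intro h
        exact hp1 h.1.2
    · rw [indicator_of_notMem hp, indicator_of_notMem]
      intro h
      exact hp ⟨h.1.1, h.2⟩
  rw [h2]
  have hc : Continuous fun p : ℝ × ℝ => p.1 * g (pol p.1 p.2) :=
    continuous_fst.mul (hg.comp pol_cont)
  have h3 : ∫ p in Ioo (0 : ℝ) 1 ×ˢ Ioo (-Real.pi) Real.pi, p.1 * g (pol p.1 p.2) =
      ∫ q in Ioo (-Real.pi) Real.pi ×ˢ Ioo (0 : ℝ) 1, q.2 * g (pol q.2 q.1) := by
    have := setIntegral_prod_swap (μ := (volume : Measure ℝ)) (ν := (volume : Measure ℝ))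
      (Ioo (0 : ℝ) 1) (Ioo (-Real.pi) Real.pi) (fun p : ℝ × ℝ => p.1 * g (pol p.1 p.2))
    exact this.symm
  rw [h3]
  have hc2 : Continuous fun q : ℝ × ℝ => q.2 * g (pol q.2 q.1) :=
    hc.comp continuous_swap
  rw [Measure.volume_eq_prod, setIntegral_prod]
  · rw [intervalIntegral.integral_of_le hpi, ← integral_Ioc_eq_integral_Ioo]
    apply setIntegral_congr_fun measurableSet_Ioc
    intro θ _
    simp only
    rw [intervalIntegral.integral_of_le zero_le_one, ← integral_Ioc_eq_integral_Ioo]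
  · refine IntegrableOn.mono_set (t := Icc (-Real.pi) Real.pi ×ˢ Icc (0 : ℝ) 1) ?_
      (prod_mono Ioo_subset_Icc_self Ioo_subset_Icc_self)
    rw [← Measure.volume_eq_prod]
    exact hc2.continuousOn.integrableOn_compact (isCompact_Icc.prod isCompact_Icc)

theorem swap_int {F : ℝ → ℝ → ℝ} (hF : Continuous F.uncurry) (a b c d : ℝ) :
    ∫ x in a..b, ∫ y in c..d, F x y = ∫ y in c..d, ∫ x in a..b, F x y := by
  apply intervalIntegral_intervalIntegral_swap
  exact (hF.continuousOn.integrableOn_compact (isCompact_uIcc.prod isCompact_uIcc)).mono_set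
    (prod_mono uIoc_subset_uIcc uIoc_subset_uIcc)

theorem pol_hasDeriv_r (r θ : ℝ) :
    HasDerivAt (fun r : ℝ => pol r θ) ((Real.cos θ : ℂ) + Real.sin θ * Complex.I) r := by
  unfold pol
  have h1 : HasDerivAt (fun s : ℝ => (s : ℂ)) 1 r := Complex.ofRealCLM.hasDerivAt
  have h2 := h1.mul_const ((Real.cos θ : ℂ) + Real.sin θ * Complex.I)
  simpa using h2

theorem pol_hasDeriv_θ (r θ : ℝ) :
    HasDerivAt (fun θ : ℝ => pol r θ) (r * (-Real.sin θ + Real.cos θ * Complex.I)) θ := by
  unfold pol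
  have h1 : HasDerivAt (fun s : ℝ => ((Real.cos s : ℝ) : ℂ)) ((-Real.sin θ : ℝ) : ℂ) θ :=
    (Real.hasDerivAt_cos θ).ofReal_comp
  have h2 : HasDerivAt (fun s : ℝ => ((Real.sin s : ℝ) : ℂ)) ((Real.cos θ : ℝ) : ℂ) θ :=
    (Real.hasDerivAt_sin θ).ofReal_comp
  have h3 := (h1.add (h2.mul_const Complex.I)).const_mul (r : ℂ)
  simpa using h3

theorem norm_e' (θ : ℝ) : ‖(-(Real.sin θ : ℂ) + Real.cos θ * Complex.I)‖ = 1 := by
  have h : (-(Real.sin θ : ℂ) + Real.cos θ * Complex.I) =
      Complex.I * ((Real.cos θ : ℂ) + Real.sin θ * Complex.I) := by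
    ring_nf
    rw [Complex.I_sq]
    ring
  rw [h, norm_mul, norm_e, Complex.norm_I, mul_one]

theorem core {f k : ℝ → ℝ} {a b : ℝ} (hf : Continuous f) (hanti : AntitoneOn f (Icc 0 1))
    (hfpos : ∀ t ∈ Ico (0 : ℝ) 1, 0 < f t) (hf1 : 0 ≤ f 1) (ha : 0 < a) (hab : a < b)
    (hb : b < 1) (hk : Continuous k) (hkint : (∫ s in a..b, k s) = 1) {K : ℝ} (hK0 : 0 ≤ K)
    (hK : ∀ s ∈ Icc a b, |k s| ≤ K) {W D : ℝ → ℝ → ℝ}
    (hW : Continuous fun p : ℝ × ℝ => W p.1 p.2) (hDc : Continuous fun p : ℝ × ℝ => D p.1 p.2)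
    (hpr : ∀ θ x y, x ≤ y → (W y θ - W x θ) ^ 2 ≤ (y - x) * ∫ t in x..y, D t θ ^ 2)
    (hpθ : ∀ s x y, x ≤ y → (W s y - W s x) ^ 2 ≤ (y - x) * ∫ t in x..y, (|s| * D s t) ^ 2) :
    ∫ θ in (-Real.pi)..Real.pi, ∫ r in (0 : ℝ)..1,
      r * (f r ^ 2 * (W r θ - ∫ s in a..b, k s * W s 0) ^ 2) ≤
    (2 * K ^ 2 * ((f 0 ^ 2 / f b ^ 2 + 1 / a) + 4 * Real.pi ^ 2 * (f 0 ^ 2 / f b ^ 2)) + 1) *
      ∫ θ in (-Real.pi)..Real.pi, ∫ r in (0 : ℝ)..1, r * (f r ^ 2 * D r θ ^ 2) := by
  have hb0 : 0 < b := ha.trans hab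
  have ha1 : a < 1 := hab.trans hb
  have hfb : 0 < f b := hfpos b ⟨hb0.le, hb⟩
  have hf0 : 0 < f 0 := hfpos 0 ⟨le_rfl, one_pos⟩
  have hfnn : ∀ r ∈ Icc (0 : ℝ) 1, 0 ≤ f r := by
    intro r hr
    rcases hr.2.eq_or_lt with h | h
    · rw [h]; exact hf1
    · exact (hfpos r ⟨hr.1, h⟩).le
  have hfle : ∀ r ∈ Icc (0 : ℝ) 1, f r ≤ f 0 := fun r hr =>
    hanti ⟨le_rfl, zero_le_one⟩ hr hr.1
  obtain ⟨q, hq⟩ : ∃ q, q = f 0 ^ 2 / f b ^ 2 := ⟨_, rfl⟩
  have hq0 : 0 < q := by rw [hq]; positivity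
  obtain ⟨C3, hC3⟩ : ∃ C3, C3 = q + 1 / a := ⟨_, rfl⟩
  have hC30 : 0 < C3 := by rw [hC3]; positivity
  rw [← hq, ← hC3]
  have hpi := Real.pi_pos
  have hDr : ∀ θ, Continuous fun r => D r θ := fun θ =>
    Continuous.comp (g := fun p : ℝ × ℝ => D p.1 p.2) hDc
      (continuous_id.prodMk continuous_const)
  have hDθ : ∀ r, Continuous fun θ => D r θ := fun r =>
    Continuous.comp (g := fun p : ℝ × ℝ => D p.1 p.2) hDc
      (continuous_const.prodMk continuous_id)
  have hDs : Continuous fun p : ℝ × ℝ => D p.2 p.1 :=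
    Continuous.comp (g := fun p : ℝ × ℝ => D p.1 p.2) hDc continuous_swap
  have hWr : ∀ θ, Continuous fun r => W r θ := fun θ =>
    Continuous.comp (g := fun p : ℝ × ℝ => W p.1 p.2) hW
      (continuous_id.prodMk continuous_const)
  have hWs : Continuous fun p : ℝ × ℝ => W p.2 p.1 :=
    Continuous.comp (g := fun p : ℝ × ℝ => W p.1 p.2) hW continuous_swap
  obtain ⟨F, hF⟩ : ∃ F : ℝ → ℝ → ℝ, F = fun θ r => r * (f r ^ 2 * D r θ ^ 2) := ⟨_, rfl⟩
  have hFv : ∀ θ r, F θ r = r * (f r ^ 2 * D r θ ^ 2) := fun θ r => by rw [hF]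
  have hFc : Continuous F.uncurry := by
    rw [hF]
    change Continuous fun p : ℝ × ℝ => p.2 * (f p.2 ^ 2 * D p.2 p.1 ^ 2)
    fun_prop
  have hFr : ∀ θ, Continuous (F θ) := fun θ => by
    rw [hF]
    have := hDr θ
    fun_prop
  have hFnn : ∀ θ, ∀ r ∈ Icc (0 : ℝ) 1, 0 ≤ F θ r := by
    intro θ r hr
    have := hr.1
    rw [hFv]; positivity
  obtain ⟨R, hR⟩ : ∃ R : ℝ → ℝ, R = fun θ => ∫ r in (0 : ℝ)..1, F θ r := ⟨_, rfl⟩
  have hRv : ∀ θ, R θ = ∫ r in (0 : ℝ)..1, F θ r := fun θ => by rw [hR]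
  have hRc : Continuous R := by
    rw [hR]
    exact intervalIntegral.continuous_parametric_intervalIntegral_of_continuous' hFc 0 1
  have hRnn : ∀ θ, 0 ≤ R θ := fun θ => by
    rw [hRv]; exact intervalIntegral.integral_nonneg zero_le_one (hFnn θ)
  have hER0 : ∫ θ in (-Real.pi)..Real.pi, ∫ r in (0 : ℝ)..1, r * (f r ^ 2 * D r θ ^ 2) =
      ∫ θ in (-Real.pi)..Real.pi, R θ := by
    rw [hR, hF]
  rw [hER0]
  obtain ⟨E, hER⟩ : ∃ E, E = ∫ θ in (-Real.pi)..Real.pi, R θ := ⟨_, rfl⟩
  rw [← hER]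
  have hE0 : 0 ≤ E := by
    rw [hER]; exact intervalIntegral.integral_nonneg (by linarith) fun θ _ => hRnn θ
  obtain ⟨ℓ, hℓ⟩ : ∃ ℓ, ℓ = ∫ s in a..b, k s * W s 0 := ⟨_, rfl⟩
  rw [← hℓ]
  -- (i) radial estimate
  have hrad : ∀ θ, ∀ r ∈ Icc (0 : ℝ) 1, ∀ s ∈ Icc a b,
      r * f r ^ 2 * (W r θ - W s θ) ^ 2 ≤ C3 * R θ := by
    intro θ r hr s hs
    have hs0 : 0 ≤ s := ha.le.trans hs.1
    have hs1 : s ≤ 1 := hs.2.trans hb.le
    have hsub : ∀ x y : ℝ, 0 ≤ x → x ≤ y → y ≤ 1 → ∫ t in x..y, F θ t ≤ R θ := by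
      intro x y hx hxy hy
      rw [hRv]
      apply intervalIntegral.integral_mono_interval hx hxy hy
      · refine (ae_restrict_iff' measurableSet_Ioc).2 (Filter.Eventually.of_forall ?_)
        intro t ht
        exact hFnn θ t (Ioc_subset_Icc_self ht)
      · exact (hFr θ).intervalIntegrable _ _
    rcases le_total r s with h | h
    · have hp := hpr θ r s h
      have h1 : r * f r ^ 2 * ∫ t in r..s, D t θ ^ 2 ≤ q * ∫ t in r..s, F θ t := by
        rw [← intervalIntegral.integral_const_mul, ← intervalIntegral.integral_const_mul]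
        apply intervalIntegral.integral_mono_on h
        · exact Continuous.intervalIntegrable (by have := hDr θ; fun_prop) _ _
        · exact Continuous.intervalIntegrable (by have := hFr θ; fun_prop) _ _
        · intro t ht
          have ht0 : 0 ≤ t := hr.1.trans ht.1
          have htb : t ≤ b := ht.2.trans hs.2
          have hft : f b ≤ f t := hanti ⟨ht0, htb.trans hb.le⟩ ⟨hb0.le, hb.le⟩ htb
          have hfr : f r ≤ f 0 := hfle r hr
          have hfr0 : 0 ≤ f r := hfnn r hr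
          rw [hFv]
          have h3 : f r ^ 2 ≤ q * f t ^ 2 := by
            rw [hq]
            calc f r ^ 2 ≤ f 0 ^ 2 := by gcongr
              _ = f 0 ^ 2 / f b ^ 2 * f b ^ 2 := by field_simp
              _ ≤ _ := by gcongr
          calc r * f r ^ 2 * D t θ ^ 2 ≤ t * (q * f t ^ 2) * D t θ ^ 2 := by
                have := ht.1
                gcongr
            _ = q * (t * (f t ^ 2 * D t θ ^ 2)) := by ring
      have h2 : (W r θ - W s θ) ^ 2 ≤ ∫ t in r..s, D t θ ^ 2 := by
        have h3 : (W r θ - W s θ) ^ 2 = (W s θ - W r θ) ^ 2 := by ring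
        rw [h3]
        refine hp.trans ?_
        have h4 : 0 ≤ ∫ t in r..s, D t θ ^ 2 :=
          intervalIntegral.integral_nonneg h fun t _ => by positivity
        have h5 : s - r ≤ 1 := by linarith [hr.1]
        nlinarith
      have h6 : 0 ≤ r * f r ^ 2 := by have := hr.1; positivity
      calc r * f r ^ 2 * (W r θ - W s θ) ^ 2
          ≤ r * f r ^ 2 * ∫ t in r..s, D t θ ^ 2 := by gcongr
        _ ≤ q * ∫ t in r..s, F θ t := h1
        _ ≤ q * R θ := by
            have := hsub r s hr.1 h hs1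
            gcongr
        _ ≤ C3 * R θ := by
            have h7 : 0 < 1 / a := by positivity
            have h8 : q ≤ C3 := by rw [hC3]; linarith
            have h9 := hRnn θ
            gcongr
    · have hp := hpr θ s r h
      have h1 : r * f r ^ 2 * ∫ t in s..r, D t θ ^ 2 ≤ 1 / a * ∫ t in s..r, F θ t := by
        rw [← intervalIntegral.integral_const_mul, ← intervalIntegral.integral_const_mul]
        apply intervalIntegral.integral_mono_on h
        · exact Continuous.intervalIntegrable (by have := hDr θ; fun_prop) _ _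
        · exact Continuous.intervalIntegrable (by have := hFr θ; fun_prop) _ _
        · intro t ht
          have hta : a ≤ t := hs.1.trans ht.1
          have ht0 : 0 ≤ t := ha.le.trans hta
          have ht1 : t ≤ 1 := ht.2.trans hr.2
          have hft : f r ≤ f t := hanti ⟨ht0, ht1⟩ hr ht.2
          have hfr0 : 0 ≤ f r := hfnn r hr
          rw [hFv]
          have h3 : r ≤ 1 / a * t := by
            have h4 : 1 ≤ 1 / a * t := by
              rw [one_div, inv_mul_eq_div, le_div_iff₀ ha, one_mul]; exact hta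
            linarith [hr.2]
          calc r * f r ^ 2 * D t θ ^ 2 ≤ (1 / a * t) * f t ^ 2 * D t θ ^ 2 := by gcongr
            _ = 1 / a * (t * (f t ^ 2 * D t θ ^ 2)) := by ring
      have h2 : (W r θ - W s θ) ^ 2 ≤ ∫ t in s..r, D t θ ^ 2 := by
        refine hp.trans ?_
        have h4 : 0 ≤ ∫ t in s..r, D t θ ^ 2 :=
          intervalIntegral.integral_nonneg h fun t _ => by positivity
        have h5 : r - s ≤ 1 := by linarith [hr.2]
        nlinarith
      have h6 : 0 ≤ r * f r ^ 2 := by have := hr.1; positivity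
      calc r * f r ^ 2 * (W r θ - W s θ) ^ 2
          ≤ r * f r ^ 2 * ∫ t in s..r, D t θ ^ 2 := by gcongr
        _ ≤ 1 / a * ∫ t in s..r, F θ t := h1
        _ ≤ 1 / a * R θ := by
            have := hsub s r hs0 h hr.2
            gcongr
        _ ≤ C3 * R θ := by
            have h8 : 1 / a ≤ C3 := by rw [hC3]; linarith
            have h9 := hRnn θ
            gcongr
  -- (ii) angular estimate
  have hang : ∀ θ ∈ Icc (-Real.pi) Real.pi, ∀ s : ℝ,
      (W s θ - W s 0) ^ 2 ≤
        Real.pi * ∫ φ in (-Real.pi)..Real.pi, (|s| * D s φ) ^ 2 := by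
    intro θ hθ s
    have hdd : Continuous fun t => |s| * D s t := by have := hDθ s; fun_prop
    have hint : ∀ x y : ℝ, -Real.pi ≤ x → x ≤ y → y ≤ Real.pi →
        ∫ t in x..y, (|s| * D s t) ^ 2 ≤ ∫ t in (-Real.pi)..Real.pi, (|s| * D s t) ^ 2 := by
      intro x y hx hxy hy
      apply intervalIntegral.integral_mono_interval hx hxy hy
      · exact Filter.Eventually.of_forall fun t => by positivity
      · exact (hdd.pow 2).intervalIntegrable _ _
    rcases le_total 0 θ with h | h
    · have hp := hpθ s 0 θ h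
      refine hp.trans ?_
      have h1 := hint 0 θ (by linarith) h hθ.2
      have h2 : 0 ≤ ∫ t in (0 : ℝ)..θ, (|s| * D s t) ^ 2 :=
        intervalIntegral.integral_nonneg h fun t _ => by positivity
      have h3 : θ - 0 ≤ Real.pi := by linarith [hθ.2]
      gcongr
    · have hp := hpθ s θ 0 h
      have h4 : (W s θ - W s 0) ^ 2 = (W s 0 - W s θ) ^ 2 := by ring
      rw [h4]
      refine hp.trans ?_
      have h1 := hint θ 0 hθ.1 h (by linarith)
      have h2 : 0 ≤ ∫ t in θ..(0 : ℝ), (|s| * D s t) ^ 2 :=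
        intervalIntegral.integral_nonneg h fun t _ => by positivity
      have h3 : 0 - θ ≤ Real.pi := by linarith [hθ.1]
      gcongr
  -- integrated angular estimate
  have hangint : ∀ θ ∈ Icc (-Real.pi) Real.pi,
      ∫ s in a..b, (W s θ - W s 0) ^ 2 ≤ Real.pi * (1 / f b ^ 2) * E := by
    intro θ hθ
    have hG : Continuous (fun s φ : ℝ => (|s| * D s φ) ^ 2).uncurry := by
      change Continuous fun p : ℝ × ℝ => (|p.1| * D p.1 p.2) ^ 2
      fun_prop
    have hc1 : Continuous fun s : ℝ => ∫ φ in (-Real.pi)..Real.pi, (|s| * D s φ) ^ 2 :=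
      intervalIntegral.continuous_parametric_intervalIntegral_of_continuous' hG _ _
    have hF2 : Continuous (fun s φ : ℝ => F φ s).uncurry := hFc.comp continuous_swap
    have hc2 : Continuous fun s : ℝ => ∫ φ in (-Real.pi)..Real.pi, F φ s :=
      intervalIntegral.continuous_parametric_intervalIntegral_of_continuous' hF2 _ _
    have hWθ := hWr θ
    have hW0 := hWr 0
    have h1 : ∫ s in a..b, (W s θ - W s 0) ^ 2 ≤
        ∫ s in a..b, Real.pi * ∫ φ in (-Real.pi)..Real.pi, (|s| * D s φ) ^ 2 := by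
      apply intervalIntegral.integral_mono_on hab.le
      · exact Continuous.intervalIntegrable (by fun_prop) _ _
      · exact (hc1.const_mul _).intervalIntegrable _ _
      · intro s _
        exact hang θ hθ s
    refine h1.trans ?_
    rw [intervalIntegral.integral_const_mul, mul_assoc]
    apply mul_le_mul_of_nonneg_left _ hpi.le
    have h2 : ∫ s in a..b, ∫ φ in (-Real.pi)..Real.pi, (|s| * D s φ) ^ 2 ≤
        ∫ s in a..b, 1 / f b ^ 2 * ∫ φ in (-Real.pi)..Real.pi, F φ s := by
      apply intervalIntegral.integral_mono_on hab.le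
      · exact hc1.intervalIntegrable _ _
      · exact (hc2.const_mul _).intervalIntegrable _ _
      · intro s hs
        rw [← intervalIntegral.integral_const_mul]
        apply intervalIntegral.integral_mono_on (by linarith)
        · exact Continuous.intervalIntegrable (by have := hDθ s; fun_prop) _ _
        · exact Continuous.intervalIntegrable (by
            have := hDθ s
            simp only [hFv]
            fun_prop) _ _
        · intro φ _
          have hs0 : 0 < s := ha.trans_le hs.1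
          have hs1 : s ≤ 1 := hs.2.trans hb.le
          have hfs : f b ≤ f s := hanti ⟨hs0.le, hs1⟩ ⟨hb0.le, hb.le⟩ hs.2
          rw [hFv]
          rw [abs_of_pos hs0]
          have h3 : s ^ 2 ≤ 1 / f b ^ 2 * (s * f s ^ 2) := by
            calc s ^ 2 ≤ s * 1 := by nlinarith
              _ = 1 / f b ^ 2 * (s * f b ^ 2) := by field_simp
              _ ≤ _ := by gcongr
          calc (s * D s φ) ^ 2 = s ^ 2 * D s φ ^ 2 := by ring
            _ ≤ 1 / f b ^ 2 * (s * f s ^ 2) * D s φ ^ 2 := by gcongr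
            _ = _ := by ring
    refine h2.trans ?_
    rw [intervalIntegral.integral_const_mul]
    apply mul_le_mul_of_nonneg_left _ (by positivity)
    have h3 : ∫ s in a..b, ∫ φ in (-Real.pi)..Real.pi, F φ s ≤
        ∫ s in (0 : ℝ)..1, ∫ φ in (-Real.pi)..Real.pi, F φ s := by
      apply intervalIntegral.integral_mono_interval ha.le hab.le hb.le
      · refine (ae_restrict_iff' measurableSet_Ioc).2 (Filter.Eventually.of_forall ?_)
        intro s hs
        exact intervalIntegral.integral_nonneg (by linarith) fun φ _ =>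
          hFnn φ s (Ioc_subset_Icc_self hs)
      · exact hc2.intervalIntegrable _ _
    refine h3.trans (le_of_eq ?_)
    rw [hER, swap_int hF2, hR]
  -- pointwise estimate
  have hpt : ∀ θ ∈ Icc (-Real.pi) Real.pi, ∀ r ∈ Icc (0 : ℝ) 1,
      r * (f r ^ 2 * (W r θ - ℓ) ^ 2) ≤
        2 * K ^ 2 * (C3 * R θ + f 0 ^ 2 * (Real.pi * (1 / f b ^ 2) * E)) := by
    intro θ hθ r hr
    have hWθ := hWr θ
    have hW0 := hWr 0
    have h1 : W r θ - ℓ = ∫ s in a..b, k s * (W r θ - W s 0) := by
      have h2 : ∫ s in a..b, k s * (W r θ - W s 0) =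
          (∫ s in a..b, k s * W r θ) - ∫ s in a..b, k s * W s 0 := by
        rw [← intervalIntegral.integral_sub]
        · apply intervalIntegral.integral_congr
          intro s _
          simp only
          ring
        · exact Continuous.intervalIntegrable (by fun_prop) _ _
        · exact Continuous.intervalIntegrable (by fun_prop) _ _
      rw [h2, intervalIntegral.integral_mul_const, hkint, one_mul, hℓ]
    have h2 : (W r θ - ℓ) ^ 2 ≤
        ∫ s in a..b, (k s * (W r θ - W s 0)) ^ 2 := by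
      rw [h1]
      refine (cs1 hab.le (by fun_prop)).trans ?_
      have h3 : 0 ≤ ∫ s in a..b, (k s * (W r θ - W s 0)) ^ 2 :=
        intervalIntegral.integral_nonneg hab.le fun t _ => by positivity
      have : b - a ≤ 1 := by linarith
      nlinarith
    have h3 : ∫ s in a..b, (k s * (W r θ - W s 0)) ^ 2 ≤
        ∫ s in a..b, (2 * K ^ 2 * (W r θ - W s θ) ^ 2 +
          2 * K ^ 2 * (W s θ - W s 0) ^ 2) := by
      apply intervalIntegral.integral_mono_on hab.le
      · exact Continuous.intervalIntegrable (by fun_prop) _ _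
      · exact Continuous.intervalIntegrable (by fun_prop) _ _
      · intro s hs
        have hk1 : k s ^ 2 ≤ K ^ 2 := by
          have := hK s hs
          rw [← sq_abs]
          gcongr
        have h4 : (W r θ - W s 0) ^ 2 ≤ 2 * (W r θ - W s θ) ^ 2 +
            2 * (W s θ - W s 0) ^ 2 := by
          nlinarith [sq_nonneg ((W r θ - W s θ) - (W s θ - W s 0))]
        calc (k s * (W r θ - W s 0)) ^ 2 = k s ^ 2 * (W r θ - W s 0) ^ 2 := by
              ring
          _ ≤ K ^ 2 * (2 * (W r θ - W s θ) ^ 2 +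
            2 * (W s θ - W s 0) ^ 2) := by gcongr
          _ = _ := by ring
    have hrf : 0 ≤ r * f r ^ 2 := by have := hr.1; positivity
    have h5 : r * (f r ^ 2 * (W r θ - ℓ) ^ 2) ≤
        r * f r ^ 2 * ∫ s in a..b, (2 * K ^ 2 * (W r θ - W s θ) ^ 2 +
          2 * K ^ 2 * (W s θ - W s 0) ^ 2) := by
      rw [← mul_assoc]
      gcongr
      exact h2.trans h3
    refine h5.trans ?_
    rw [intervalIntegral.integral_add, mul_add]
    rotate_left
    · exact Continuous.intervalIntegrable (by fun_prop) _ _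
    · exact Continuous.intervalIntegrable (by fun_prop) _ _
    have h6 : r * f r ^ 2 * ∫ s in a..b, 2 * K ^ 2 * (W r θ - W s θ) ^ 2 ≤
        2 * K ^ 2 * (C3 * R θ) := by
      rw [← intervalIntegral.integral_const_mul]
      have h7 : ∫ s in a..b, r * f r ^ 2 * (2 * K ^ 2 * (W r θ - W s θ) ^ 2) ≤
          ∫ s in a..b, 2 * K ^ 2 * (C3 * R θ) := by
        apply intervalIntegral.integral_mono_on hab.le
        · exact Continuous.intervalIntegrable (by fun_prop) _ _
        · exact intervalIntegrable_const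
        · intro s hs
          have := hrad θ r hr s hs
          calc _ = 2 * K ^ 2 * (r * f r ^ 2 * (W r θ - W s θ) ^ 2) := by ring
            _ ≤ _ := by gcongr
      refine h7.trans ?_
      rw [intervalIntegral.integral_const, smul_eq_mul]
      have h8 : 0 ≤ R θ := hRnn θ
      have h9 : 0 ≤ 2 * K ^ 2 * (C3 * R θ) := by positivity
      have : b - a ≤ 1 := by linarith
      nlinarith
    have h7 : r * f r ^ 2 * ∫ s in a..b, 2 * K ^ 2 * (W s θ - W s 0) ^ 2 ≤
        2 * K ^ 2 * (f 0 ^ 2 * (Real.pi * (1 / f b ^ 2) * E)) := by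
      rw [intervalIntegral.integral_const_mul]
      have h8 := hangint θ hθ
      have h9 : r * f r ^ 2 ≤ f 0 ^ 2 := by
        have a1 := hfle r hr
        have a2 := hfnn r hr
        calc r * f r ^ 2 ≤ 1 * f 0 ^ 2 := by
              have := hr.2
              gcongr
          _ = _ := one_mul _
      have h10 : 0 ≤ ∫ s in a..b, (W s θ - W s 0) ^ 2 :=
        intervalIntegral.integral_nonneg hab.le fun t _ => by positivity
      calc _ = 2 * K ^ 2 * (r * f r ^ 2 * ∫ s in a..b, (W s θ - W s 0) ^ 2) := by ring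
        _ ≤ _ := by gcongr
    linarith
  -- conclusion
  have hG2 : Continuous (fun θ r : ℝ => r * (f r ^ 2 * (W r θ - ℓ) ^ 2)).uncurry := by
    change Continuous fun p : ℝ × ℝ => p.2 * (f p.2 ^ 2 * (W p.2 p.1 - ℓ) ^ 2)
    fun_prop
  have hfin : ∫ θ in (-Real.pi)..Real.pi, ∫ r in (0 : ℝ)..1,
      r * (f r ^ 2 * (W r θ - ℓ) ^ 2) ≤ ∫ θ in (-Real.pi)..Real.pi,
        2 * K ^ 2 * (C3 * R θ + f 0 ^ 2 * (Real.pi * (1 / f b ^ 2) * E)) := by
    apply intervalIntegral.integral_mono_on (by linarith)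
    · exact (intervalIntegral.continuous_parametric_intervalIntegral_of_continuous'
        hG2 0 1).intervalIntegrable _ _
    · exact Continuous.intervalIntegrable (by fun_prop) _ _
    · intro θ hθ
      have h1 : ∫ r in (0 : ℝ)..1, r * (f r ^ 2 * (W r θ - ℓ) ^ 2) ≤
          ∫ r in (0 : ℝ)..1, 2 * K ^ 2 * (C3 * R θ + f 0 ^ 2 * (Real.pi * (1 / f b ^ 2) * E)) := by
        apply intervalIntegral.integral_mono_on zero_le_one
        · have h2 := hWr θ
          exact Continuous.intervalIntegrable (by fun_prop) _ _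
        · exact intervalIntegrable_const
        · intro r hr
          exact hpt θ hθ r hr
      simpa using h1
  refine hfin.trans ?_
  rw [intervalIntegral.integral_const_mul, intervalIntegral.integral_add,
    intervalIntegral.integral_const_mul, ← hER, intervalIntegral.integral_const, smul_eq_mul]
  rotate_left
  · exact Continuous.intervalIntegrable (by fun_prop) _ _
  · exact intervalIntegrable_const
  have h1 : 2 * K ^ 2 * (C3 * E + (Real.pi - -Real.pi) *
      (f 0 ^ 2 * (Real.pi * (1 / f b ^ 2) * E))) =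
      2 * K ^ 2 * (C3 + 2 * Real.pi ^ 2 * q) * E := by
    rw [hq]; ring
  rw [h1]
  have h2 : 2 * K ^ 2 * (C3 + 2 * Real.pi ^ 2 * q) ≤
      2 * K ^ 2 * (C3 + 4 * Real.pi ^ 2 * q) + 1 := by
    have h3 : 2 * K ^ 2 * (C3 + 2 * Real.pi ^ 2 * q) ≤
        2 * K ^ 2 * (C3 + 4 * Real.pi ^ 2 * q) := by
      gcongr
      norm_num
    linarith
  gcongr

theorem weighted : WeightedStm := by
  intro f k a b hf hanti hfpos hf1 ha hab hb hk hkint
  obtain ⟨K, hK⟩ := isCompact_Icc.exists_bound_of_continuousOn (s := Icc a b) hk.continuousOn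
  have hK0 : 0 ≤ K := (norm_nonneg _).trans (hK a ⟨le_rfl, hab.le⟩)
  have hfb : 0 < f b := hfpos b ⟨(ha.trans hab).le, hb⟩
  have hpi := Real.pi_pos
  refine ⟨2 * K ^ 2 * ((f 0 ^ 2 / f b ^ 2 + 1 / a) + 4 * Real.pi ^ 2 * (f 0 ^ 2 / f b ^ 2)) + 1,
    by positivity, fun w hw => ?_⟩
  have hwd : Differentiable ℝ w := hw.differentiable (by simp)
  have hwc : Continuous w := hw.continuous
  have hwfc : Continuous (fderiv ℝ w) := hw.continuous_fderiv (by simp)
  have hpolr : ∀ θ, Continuous fun t : ℝ => pol t θ := fun θ => by unfold pol; fun_prop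
  have hpolθ : ∀ s, Continuous fun t : ℝ => pol s t := fun s => by unfold pol; fun_prop
  have hWc : Continuous fun p : ℝ × ℝ => w (pol p.1 p.2) := hwc.comp pol_cont
  have hDc : Continuous fun p : ℝ × ℝ => ‖fderiv ℝ w (pol p.1 p.2)‖ :=
    (hwfc.comp pol_cont).norm
  have h1 : ∀ θ x y, x ≤ y → (w (pol y θ) - w (pol x θ)) ^ 2 ≤
      (y - x) * ∫ t in x..y, ‖fderiv ℝ w (pol t θ)‖ ^ 2 := by
    intro θ x y hxy
    have hder : ∀ t : ℝ, HasDerivAt (fun r : ℝ => w (pol r θ))
        (fderiv ℝ w (pol t θ) ((Real.cos θ : ℂ) + Real.sin θ * Complex.I)) t := fun t =>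
      (hwd _).hasFDerivAt.comp_hasDerivAt t (pol_hasDeriv_r t θ)
    have hdc : Continuous fun t : ℝ =>
        fderiv ℝ w (pol t θ) ((Real.cos θ : ℂ) + Real.sin θ * Complex.I) :=
      (hwfc.comp (hpolr θ)).clm_apply continuous_const
    have hdle : ∀ t : ℝ,
        |fderiv ℝ w (pol t θ) ((Real.cos θ : ℂ) + Real.sin θ * Complex.I)| ≤
          ‖fderiv ℝ w (pol t θ)‖ := by
      intro t
      have := (fderiv ℝ w (pol t θ)).le_opNorm ((Real.cos θ : ℂ) + Real.sin θ * Complex.I)
      rw [norm_e, mul_one] at this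
      exact this
    exact path hxy hder hdc (hwfc.comp (hpolr θ)).norm hdle
  have h2 : ∀ s x y, x ≤ y → (w (pol s y) - w (pol s x)) ^ 2 ≤
      (y - x) * ∫ t in x..y, (|s| * ‖fderiv ℝ w (pol s t)‖) ^ 2 := by
    intro s x y hxy
    have hder : ∀ t : ℝ, HasDerivAt (fun θ : ℝ => w (pol s θ))
        (fderiv ℝ w (pol s t) (s * (-Real.sin t + Real.cos t * Complex.I))) t := fun t =>
      (hwd _).hasFDerivAt.comp_hasDerivAt t (pol_hasDeriv_θ s t)
    have hdc : Continuous fun t : ℝ =>
        fderiv ℝ w (pol s t) ((s : ℂ) * (-Real.sin t + Real.cos t * Complex.I)) :=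
      (hwfc.comp (hpolθ s)).clm_apply (by fun_prop)
    have hdle : ∀ t : ℝ,
        |fderiv ℝ w (pol s t) ((s : ℂ) * (-Real.sin t + Real.cos t * Complex.I))| ≤
          |s| * ‖fderiv ℝ w (pol s t)‖ := by
      intro t
      have := (fderiv ℝ w (pol s t)).le_opNorm
        ((s : ℂ) * (-Real.sin t + Real.cos t * Complex.I))
      rw [norm_mul, norm_e', mul_one, Complex.norm_real, Real.norm_eq_abs, Real.norm_eq_abs]
        at this
      rw [mul_comm |s|]
      exact this
    exact path hxy hder hdc (continuous_const.mul (hwfc.comp (hpolθ s)).norm) hdle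
  have hcore := core hf hanti hfpos hf1 ha hab hb hk hkint hK0 (fun s hs => hK s hs)
    (W := fun r θ => w (pol r θ)) (D := fun r θ => ‖fderiv ℝ w (pol r θ)‖) hWc hDc h1 h2
  have hE : ∫ z in disc, f ‖z‖ ^ 2 * ‖fderiv ℝ w z‖ ^ 2 =
      ∫ θ in (-Real.pi)..Real.pi, ∫ r in (0 : ℝ)..1,
        r * (f r ^ 2 * ‖fderiv ℝ w (pol r θ)‖ ^ 2) := by
    rw [polar_int (by fun_prop)]
    apply intervalIntegral.integral_congr
    intro θ _
    apply intervalIntegral.integral_congr
    intro r hr
    rw [uIcc_of_le zero_le_one] at hr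
    simp only
    rw [norm_pol, abs_of_nonneg hr.1]
  have hLHS : ∀ ℓ : ℝ, ∫ z in disc, f ‖z‖ ^ 2 * (w z - ℓ) ^ 2 =
      ∫ θ in (-Real.pi)..Real.pi, ∫ r in (0 : ℝ)..1, r * (f r ^ 2 * (w (pol r θ) - ℓ) ^ 2) := by
    intro ℓ
    rw [polar_int (by fun_prop)]
    apply intervalIntegral.integral_congr
    intro θ _
    apply intervalIntegral.integral_congr
    intro r hr
    rw [uIcc_of_le zero_le_one] at hr
    simp only
    rw [norm_pol, abs_of_nonneg hr.1]
  rw [hE, hLHS]
  simp only [pol_zero] at hcore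
  exact hcore

end Pool.Agent.Q289.SF
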